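import Pool.Agent.H60.P3.Lin

/-!
# [H60 P3 HypA] Coordinates in the hyperbolic case

`Rel3 a g`, `a ≥ 3`, `g ≠ 1`, `g ∈ G`.

PROOF.  Put `t = (a + √(a² - 4)) / 2 > 1`, `t + t⁻¹ = a`.  For `x`: `D x = g x + g⁻¹ x - 2 x`, `v x = a x - g x - g⁻¹ x` (`g⁻¹` is
`act g⁻¹`), so `(a - 2) x = D x + v x`; by `Rel3` (applied to `g⁻¹ x` and `g⁻¹ g⁻¹ x`) `g (v x) = v x` and
`g (g (D x)) = a g (D x) - D x`.  `P x = (t - t⁻¹)⁻¹ (g (D x) - t⁻¹ D x)`, `M x = (t - t⁻¹)⁻¹ (t D x - g (D x))`: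
`g (P x) = t P x`, `g (M x) = t⁻¹ M x`, `P x + M x = D x`.
There is an integral `A ∈ C` with `D A ≠ 0`: otherwise `D = 0` on the integral points of the open cone `C`, so `D = 0`
(a linear map; `C` is open, the rational points are dense), `g x + g⁻¹ x = 2 x`, `Rel3` gives `(a - 2)(g x - x) = 0`, `g = 1`.
`P A ≠ 0`: otherwise `D A = M A` is integral and `g ^ n (D A) = t ^ (-n) D A → 0` is integral, so `0`.  In the same way
`M A ≠ 0` (with `g⁻¹`).  `l (P A) = l (g (P A)) = t l (P A)`, so `l (P A) = 0 = l (M A)`, `l (v A) = (a - 2) l A > 0`.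
`P := P A`, `M := M A`, `v := v A` are eigenvectors for different eigenvalues: linearly independent, so a basis of `ℝ³`.
`g ^ n A / t ^ n → (a - 2)⁻¹ P ∈ closure C`; `g ^ (-n) A / t ^ n → (a - 2)⁻¹ M ∈ closure C`.
`nn`: `x = a P + b M + c v ∈ closure C`: `g ^ n x / t ^ n → a P ∈ closure C`: `a ≥ 0` (`pointed`); the same for `b`; `l x = c l v ≥ 0`.
-/

set_option autoImplicit false

namespace Pool.Agent.H60.P3

open Pool.Agent.H57.KM Pool.Agent.H20.FV

variable {C : Set (V 3)} {G : Subgroup (GL (Fin 3) ℤ)} {T : V 3 →ₗ[ℝ] V 3 →ₗ[ℝ] V 3 →ₗ[ℝ] ℝ} {l : V 3 →ₗ[ℝ] ℝ}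
  {g : GL (Fin 3) ℤ} {a : ℤ}

theorem rel_inv (hr : Rel3 a g) (x : V 3) :
    act g (act g x) = ((a : ℝ) + 1) • act g x - ((a : ℝ) + 1) • x + act g⁻¹ x := by
  have h1 := hr (act g⁻¹ x)
  rwa [act_act_inv] at h1

/-- `D x = g x + g⁻¹ x - 2 x` -/
noncomputable def Dm (g : GL (Fin 3) ℤ) : V 3 →ₗ[ℝ] V 3 := actL g + actL g⁻¹ - (2 : ℝ) • LinearMap.id

theorem dm_apply (g : GL (Fin 3) ℤ) (x : V 3) : Dm g x = act g x + act g⁻¹ x - (2 : ℝ) • x := rfl

/-- `a x - g x - g⁻¹ x` -/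
def Wm (a : ℤ) (g : GL (Fin 3) ℤ) (x : V 3) : V 3 := (a : ℝ) • x - act g x - act g⁻¹ x

theorem wm_fix (hr : Rel3 a g) (x : V 3) : act g (Wm a g x) = Wm a g x := by
  unfold Wm
  rw [act_sub, act_sub, act_smul, act_act_inv, rel_inv hr]
  module

theorem dm_rel (hr : Rel3 a g) (x : V 3) : act g (act g (Dm g x)) = (a : ℝ) • act g (Dm g x) - Dm g x := by
  rw [dm_apply]
  simp only [act_sub, act_add, act_smul, act_act_inv]
  rw [hr x, rel_inv hr x]
  module

theorem dm_ne (ha : 3 ≤ a) (hr : Rel3 a g) (hg1 : g ≠ 1) : Dm g ≠ 0 := by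
  intro h0
  apply hg1
  refine act_inj fun x => ?_
  rw [act_one]
  have h1 : ∀ x, act g x + act g⁻¹ x - (2 : ℝ) • x = 0 := fun x => by
    rw [← dm_apply, h0, LinearMap.zero_apply]
  have h2 := h1 x
  have h3 : act g⁻¹ x = (2 : ℝ) • x - act g x := by
    rw [sub_eq_zero] at h2
    rw [← h2]
    abel
  have h4 := rel_inv hr x
  have h5 : act g (act g⁻¹ x) = x := act_act_inv g x
  rw [h3, act_sub, act_smul] at h5
  rw [h3] at h4
  have ha' : (3 : ℝ) ≤ a := by exact_mod_cast ha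
  have h6 : ((a : ℝ) - 2) • (act g x - x) = 0 := by
    have e1 : act g (act g x) = (2 : ℝ) • act g x - x := by
      rw [sub_eq_iff_eq_add.1 h5]
      abel
    rw [e1] at h4
    have h7 := sub_eq_zero.2 h4
    rw [← neg_eq_zero] at h7
    rw [← h7]
    module
  have h7 := (smul_eq_zero.1 h6).resolve_left (by linarith)
  exact sub_eq_zero.1 h7

theorem hypA (f : Fr C G T l) (hg : g ∈ G) (hg1 : g ≠ 1) (ha : 3 ≤ a) (hr : Rel3 a g) :
    ∃ (t : ℝ) (P M v : V 3), HypD C l g t P M v := by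
  have ha' : (3 : ℝ) ≤ a := by exact_mod_cast ha
  -- the eigenvalue
  obtain ⟨t, ht, hta⟩ : ∃ t : ℝ, 1 < t ∧ t + t⁻¹ = a := by
    have h1 : (0 : ℝ) ≤ (a : ℝ) ^ 2 - 4 := by nlinarith
    have h2 := Real.sq_sqrt h1
    have h3 := Real.sqrt_nonneg ((a : ℝ) ^ 2 - 4)
    have h4 : ((a + √((a : ℝ) ^ 2 - 4)) / 2) * ((a - √((a : ℝ) ^ 2 - 4)) / 2) = 1 := by
      nlinarith
    refine ⟨(a + √((a : ℝ) ^ 2 - 4)) / 2, by linarith, ?_⟩
    rw [← eq_inv_of_mul_eq_one_right h4]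
    ring
  have ht0 : 0 < t := zero_lt_one.trans ht
  have hti : t * t⁻¹ = 1 := mul_inv_cancel₀ ht0.ne'
  have hti1 : t⁻¹ < 1 := inv_lt_one_of_one_lt₀ ht
  have hd : 0 < t - t⁻¹ := by linarith
  obtain ⟨A, hAC, hDA⟩ := exists_int_ne f.amp (dm_ne ha hr hg1)
  obtain ⟨D, hD⟩ : ∃ D, D = Dm g (toR A) := ⟨_, rfl⟩
  obtain ⟨v, hv⟩ : ∃ v, v = Wm a g (toR A) := ⟨_, rfl⟩
  rw [← hD] at hDA
  have hLL : act g (act g D) = (a : ℝ) • act g D - D := by rw [hD]; exact dm_rel hr _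
  have hgv : act g v = v := by rw [hv]; exact wm_fix hr _
  obtain ⟨P, hP⟩ : ∃ P, P = (t - t⁻¹)⁻¹ • (act g D - t⁻¹ • D) := ⟨_, rfl⟩
  obtain ⟨M, hM⟩ : ∃ M, M = (t - t⁻¹)⁻¹ • (t • D - act g D) := ⟨_, rfl⟩
  have hPM : P + M = D := by
    rw [hP, hM, ← smul_add]
    have e : act g D - t⁻¹ • D + (t • D - act g D) = (t - t⁻¹) • D := by module
    rw [e, smul_smul, inv_mul_cancel₀ hd.ne', one_smul]
  have hgP : act g P = t • P := by
    rw [hP, act_smul, act_sub, act_smul, hLL, ← hta, smul_comm t]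
    congr 1
    have e : (t + t⁻¹) • act g D - D - t⁻¹ • act g D = t • act g D - (1 : ℝ) • D := by module
    rw [e, smul_sub, smul_smul, hti]
  have hgM : act g M = t⁻¹ • M := by
    rw [hM, act_smul, act_sub, act_smul, hLL, ← hta, smul_comm t⁻¹]
    congr 1
    have e : t • act g D - ((t + t⁻¹) • act g D - D) = (1 : ℝ) • D - t⁻¹ • act g D := by module
    rw [e, smul_sub, smul_smul, mul_comm, hti]
  have hgv1 : act g v = (1 : ℝ) • v := by rw [hgv, one_smul]
  -- integral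
  have hDi : ∃ d : Fin 3 → ℤ, toR d = D := by
    obtain ⟨x, hx⟩ := exists_toR_act g A
    obtain ⟨y, hy⟩ := exists_toR_act g⁻¹ A
    refine ⟨x + y - (2 : ℤ) • A, ?_⟩
    rw [toR_sub, toR_add, toR_smul, hx, hy, hD, dm_apply]
    norm_num
  have hvi : ∃ z : Fin 3 → ℤ, toR z = v := by
    obtain ⟨x, hx⟩ := exists_toR_act g A
    obtain ⟨y, hy⟩ := exists_toR_act g⁻¹ A
    exact ⟨a • A - x - y, by rw [toR_sub, toR_sub, toR_smul, hx, hy, hv]; rfl⟩
  have hAe : ((a : ℝ) - 2) • toR A = P + M + v := by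
    rw [hPM, hD, hv, dm_apply]
    unfold Wm
    module
  have ha2 : (0 : ℝ) < (a : ℝ) - 2 := by linarith
  -- not zero
  obtain ⟨d, hd1⟩ := hDi
  have hP0 : P ≠ 0 := by
    intro h0
    rw [h0, zero_add] at hPM
    have h1 : Filter.Tendsto (fun k : ℕ => act (g ^ (k : ℤ)) (toR d)) Filter.atTop (nhds 0) := by
      have h2 := (hyp_tend ht 1).smul_const M
      rw [zero_smul] at h2
      refine h2.congr fun k => ?_
      rw [hd1, ← hPM, act_zpow_eig (inv_ne_zero ht0.ne') hgM, mul_one, inv_zpow, zpow_neg]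
    rw [int_tend h1] at hd1
    exact hDA hd1.symm
  have hM0 : M ≠ 0 := by
    intro h0
    rw [h0, add_zero] at hPM
    have h1 : Filter.Tendsto (fun k : ℕ => act (g ^ (-(k : ℤ))) (toR d)) Filter.atTop (nhds 0) := by
      have h2 := (hyp_tend ht 1).smul_const P
      rw [zero_smul] at h2
      refine h2.congr fun k => ?_
      rw [hd1, ← hPM, act_zpow_eig ht0.ne' hgP, mul_one]
    rw [int_tend h1] at hd1
    exact hDA hd1.symm
  have hlP : l P = 0 := by
    have h1 := f.linv g hg P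
    rw [hgP, map_smul, smul_eq_mul] at h1
    have h2 : (t - 1) * l P = 0 := by linarith
    exact (mul_eq_zero.1 h2).resolve_left (by linarith)
  have hlM : l M = 0 := by
    have h1 := f.linv g hg M
    rw [hgM, map_smul, smul_eq_mul] at h1
    have h2 : (t⁻¹ - 1) * l M = 0 := by linarith
    exact (mul_eq_zero.1 h2).resolve_left (by linarith)
  have hlv : 0 < l v := by
    have h1 := congrArg l hAe
    rw [map_smul, map_add, map_add, hlP, hlM, zero_add, zero_add, smul_eq_mul] at h1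
    rw [← h1]
    exact mul_pos ha2 (f.lpos _ hAC)
  have hv0 : v ≠ 0 := fun h0 => by
    rw [h0, map_zero] at hlv
    exact lt_irrefl _ hlv
  -- limits
  have key : ∀ (x y z : ℝ), x • P + y • M + z • v ∈ closure C → x • P ∈ closure C ∧ y • M ∈ closure C := by
    intro x y z hx
    have hk : ∀ k : ℤ, (t ^ k * x) • P + (t ^ (-k) * y) • M + z • v ∈ closure C := fun k => by
      have h1 := f.pres.closure _ (G.zpow_mem hg k) _ hx
      rwa [act_add, act_add, act_smul, act_smul, act_smul, act_zpow_eig ht0.ne' hgP,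
        act_zpow_eig (inv_ne_zero ht0.ne') hgM, act_zpow_eig one_ne_zero hgv1, one_zpow, one_smul, smul_smul, smul_smul,
        inv_zpow, ← zpow_neg, mul_comm x, mul_comm y] at h1
    have cancel : ∀ k : ℕ, t ^ (-(k : ℤ)) * t ^ (k : ℤ) = 1 := fun k => by
      rw [← zpow_add₀ ht0.ne', neg_add_cancel, zpow_zero]
    have lim : ∀ (x y z : ℝ) (P M v : V 3), Filter.Tendsto (fun k : ℕ => x • P + (t ^ (-(k : ℤ)) * z) • v +
        (t ^ (-(k : ℤ)) * (t ^ (-(k : ℤ)) * y)) • M) Filter.atTop (nhds (x • P)) := by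
      intro x y z P M v
      have h1 := ((tendsto_const_nhds (x := x • P)).add ((hyp_tend ht z).smul_const v)).add
        (((hyp_tend ht 1).mul (hyp_tend ht y)).smul_const M)
      simp only [mul_one, mul_zero, zero_smul, add_zero] at h1
      exact h1
    constructor
    · refine isClosed_closure.mem_of_tendsto (lim x y z P M v) (Filter.Eventually.of_forall fun k => ?_)
      have h1 := f.amp.closure_smul (t ^ (-(k : ℤ))) (zpow_pos ht0 _).le _ (hk k)
      have e : t ^ (-(k : ℤ)) • ((t ^ (k : ℤ) * x) • P + (t ^ (-(k : ℤ)) * y) • M + z • v) =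
          ((t ^ (-(k : ℤ)) * t ^ (k : ℤ)) * x) • P + (t ^ (-(k : ℤ)) * z) • v +
            (t ^ (-(k : ℤ)) * (t ^ (-(k : ℤ)) * y)) • M := by module
      rwa [e, cancel, one_mul] at h1
    · refine isClosed_closure.mem_of_tendsto (lim y x z M P v) (Filter.Eventually.of_forall fun k => ?_)
      have h1 := f.amp.closure_smul (t ^ (-(k : ℤ))) (zpow_pos ht0 _).le _ (hk (-(k : ℤ)))
      have e : t ^ (-(k : ℤ)) • ((t ^ (-(k : ℤ)) * x) • P + (t ^ (-(-(k : ℤ))) * y) • M + z • v) =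
          ((t ^ (-(k : ℤ)) * t ^ (- (-(k : ℤ)))) * y) • M + (t ^ (-(k : ℤ)) * z) • v +
            (t ^ (-(k : ℤ)) * (t ^ (-(k : ℤ)) * x)) • P := by module
      rwa [e, neg_neg, cancel, one_mul] at h1
  have hPMc := key 1 1 1 (by
    rw [one_smul, one_smul, one_smul, ← hAe]
    exact f.amp.closure_smul _ ha2.le _ (subset_closure hAC))
  rw [one_smul, one_smul] at hPMc
  have hind : ∀ x y z : ℝ, x • P + y • M + z • v = 0 → x = 0 ∧ y = 0 ∧ z = 0 := by
    intro x y z h0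
    have hlz := congrArg l h0
    rw [map_add, map_add, map_smul, map_smul, map_smul, hlP, hlM, smul_zero, smul_zero, zero_add, zero_add, map_zero,
      smul_eq_mul] at hlz
    have hz : z = 0 := (mul_eq_zero.1 hlz).resolve_right hlv.ne'
    rw [hz, zero_smul, add_zero] at h0
    have h1 := congrArg (act g) h0
    rw [act_add, act_smul, act_smul, hgP, hgM, act_zero] at h1
    have h2 : ((t - t⁻¹) * x) • P = 0 := by
      have e : ((t - t⁻¹) * x) • P = (x • t • P + y • t⁻¹ • M) - t⁻¹ • (x • P + y • M) := by module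
      rw [e, h1, h0, smul_zero, sub_zero]
    have hx : x = 0 := by
      have h3 := (smul_eq_zero.1 h2).resolve_right hP0
      exact (mul_eq_zero.1 h3).resolve_left hd.ne'
    rw [hx, zero_smul, zero_add] at h0
    exact ⟨hx, (smul_eq_zero.1 h0).resolve_right hM0, hz⟩
  refine ⟨t, P, M, v, ht, hgP, hgM, hgv, hPMc.1, hPMc.2, hP0, hM0, hlP, hlM, hlv, ⟨d, hd1.trans hPM.symm⟩, hvi, span3 hind,
    hind, fun x y z hx => ?_⟩
  obtain ⟨h1, h2⟩ := key x y z hx
  refine ⟨ray_nn f.amp hPMc.1 hP0 h1, ray_nn f.amp hPMc.2 hM0 h2, ?_⟩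
  have h3 := l_nn f hx
  rw [map_add, map_add, map_smul, map_smul, map_smul, hlP, hlM, smul_zero, smul_zero, zero_add, zero_add,
    smul_eq_mul] at h3
  exact nonneg_of_mul_nonneg_left h3 hlv

end Pool.Agent.H60.P3
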