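import Pool.Agent.H60.P3.HypC

/-!
# [H60 P3 HypE] The hyperbolic case: effective classes

* `hyp_int`: an integral vector `m = a P + b M + c v` with `a = 0` or `b = 0` is a multiple of `v`: `(g - 1) m = (t - 1) a P + (t⁻¹ - 1) b M`
  is integral; if `a = 0` then `g ^ k ((g - 1) m) = t ^ (-k) ((g - 1) m) → 0` is integral, so `0`.
* `hyp_eff`: `d ∈ E`, `toR d = a P + b M + c v`: `a, b ≥ 0`.  Take `A` integral in `C`, `A = (a₁, b₁, c₁)`, all `> 0`:
  `0 ≤ T A A (g ^ k d) = 2 τ (a₁ b₁ c + (a₁ t ^ (-k) b + b₁ t ^ k a) c₁) + ν c₁² c` for all `k ∈ ℤ`; divide by `t ^ |k|`, `k → ± ∞`.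
* `hypE_hull`: `x ∈ closure C ∩ EffS E` is in `Hull C`: `x = a P + b M + c v = ∑ c_i d_i`.  If `a = 0` or `b = 0` then all `d_i` with
  `c_i > 0` have `a_i = 0` (`b_i = 0`), so they are multiples of `v` (`hyp_int`), `x = c v`: `c = 0` or `v ∈ closure C`
  integral.  If `a, b > 0`: `a P + b M ∈ Hull C` (`hyp_cone`, `act (g ^ k)` of the integral `P + M`, `act g (P + M)`); if `c = 0` done;
  if `c > 0`, `v ∈ closure C`: add `c v`; if `v ∉ closure C`: `hypC_loc`, `loc_hull`.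
* `hypE_all`: an integral `w ≠ 0` in `closure C`, `l w = 0`, `w ∈ EffS E`: `w = (a, b, 0)`, `a, b > 0` (`hyp_int`); every integral
  `w' ≠ 0` in `closure C` with `l w' = 0` is `(a', b', 0)`, `a', b' > 0`, and in the cone over `g ^ k w`, `g ^ (k+1) w` (as `hyp_cone`).
* `hypE_ex`: `w = P + M`.
-/

set_option autoImplicit false

namespace Pool.Agent.H60.P3

open Pool.Agent.H57.KM Pool.Agent.H20.FV

variable {C : Set (V 3)} {G : Subgroup (GL (Fin 3) ℤ)} {T : V 3 →ₗ[ℝ] V 3 →ₗ[ℝ] V 3 →ₗ[ℝ] ℝ} {l : V 3 →ₗ[ℝ] ℝ}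
  {g : GL (Fin 3) ℤ} {t : ℝ} {P M v : V 3} {E : Set (Fin 3 → ℤ)}

theorem int_small {n : ℕ} {m : Fin n → ℤ} (h : ‖(toR m : V n)‖ < 1) : m = 0 := by
  funext i
  have h1 := (norm_le_pi_norm (toR m : V n) i).trans_lt h
  have h2 : ‖(toR m : V n) i‖ = ((|m i| : ℤ) : ℝ) := by
    unfold toR
    rw [Real.norm_eq_abs, Int.cast_abs]
  rw [h2] at h1
  have h3 : |m i| < 1 := by exact_mod_cast h1
  exact Int.abs_lt_one_iff.1 h3

/-- an integral vector which tends to zero under the powers of `g` -/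
theorem int_tend {n : ℕ} {g : ℕ → GL (Fin n) ℤ} {m : Fin n → ℤ}
    (h : Filter.Tendsto (fun k => act (g k) (toR m)) Filter.atTop (nhds 0)) : (toR m : V n) = 0 := by
  have h1 := h.norm
  rw [norm_zero] at h1
  obtain ⟨k, hk⟩ := (h1.eventually_lt_const one_pos).exists
  obtain ⟨m', hm'⟩ := exists_toR_act (g k) m
  rw [← hm'] at hk
  have h2 := int_small hk
  rw [h2, toR_zero] at hm'
  rw [← act_inv_act (g k) (toR m), ← hm', act_zero]

theorem hyp_sub (h : HypD C l g t P M v) (a b c : ℝ) :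
    act g (a • P + b • M + c • v) - (a • P + b • M + c • v) = ((t - 1) * a) • P + ((t⁻¹ - 1) * b) • M + (0 : ℝ) • v := by
  rw [act_add, act_add, act_smul, act_smul, act_smul, h.gP, h.gM, h.gv]
  module

theorem hyp_int (h : HypD C l g t P M v) {m : Fin 3 → ℤ} {a b c : ℝ} (hm : toR m = a • P + b • M + c • v)
    (h0 : a = 0 ∨ b = 0) : a = 0 ∧ b = 0 := by
  have ht := h.t1
  have ht0 : 0 < t := zero_lt_one.trans ht
  obtain ⟨m', hm'⟩ : ∃ m' : Fin 3 → ℤ, toR m' = ((t - 1) * a) • P + ((t⁻¹ - 1) * b) • M + (0 : ℝ) • v := by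
    obtain ⟨m₁, hm₁⟩ := exists_toR_act g m
    exact ⟨m₁ - m, by rw [toR_sub, hm₁, hm, hyp_sub h]⟩
  rcases h0 with rfl | rfl
  · refine ⟨rfl, ?_⟩
    have h1 : Filter.Tendsto (fun k : ℕ => act (g ^ (k : ℤ)) (toR m')) Filter.atTop (nhds 0) := by
      have h2 := (hyp_tend ht ((t⁻¹ - 1) * b)).smul_const M
      rw [zero_smul] at h2
      refine h2.congr fun k => ?_
      rw [hm', hyp_zpow h, mul_zero, mul_zero, zero_smul, zero_smul, zero_add, add_zero]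
    have h3 := int_tend h1
    rw [hm'] at h3
    have h4 := (h.ind _ _ _ h3).2.1
    have h5 : t⁻¹ < 1 := inv_lt_one_of_one_lt₀ ht
    rcases mul_eq_zero.1 h4 with h6 | h6
    · linarith
    · exact h6
  · refine ⟨?_, rfl⟩
    have h1 : Filter.Tendsto (fun k : ℕ => act (g ^ (-(k : ℤ))) (toR m')) Filter.atTop (nhds 0) := by
      have h2 := (hyp_tend ht ((t - 1) * a)).smul_const P
      rw [zero_smul] at h2
      refine h2.congr fun k => ?_
      rw [hm', hyp_zpow h, mul_zero, mul_zero, zero_smul, zero_smul, add_zero, add_zero]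
    have h3 := int_tend h1
    rw [hm'] at h3
    have h4 := (h.ind _ _ _ h3).1
    rcases mul_eq_zero.1 h4 with h6 | h6
    · linarith
    · exact h6

theorem eff_nn {n : ℕ} {C : Set (V n)} {G : Subgroup (GL (Fin n) ℤ)} {T : V n →ₗ[ℝ] V n →ₗ[ℝ] V n →ₗ[ℝ] ℝ}
    {E : Set (Fin n → ℤ)} (hE : EffD C G T E) {d : Fin n → ℤ} (hd : d ∈ E) {g : GL (Fin n) ℤ} (hg : g ∈ G)
    {A : Fin n → ℤ} (hA : toR A ∈ C) : 0 ≤ T (toR A) (toR A) (act g (toR d)) := by
  rw [act_toR]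
  by_cases h0 : (g : Matrix (Fin n) (Fin n) ℤ).mulVec d = 0
  · rw [h0, toR_zero, map_zero]
  · exact (hE.pos A hA _ (hE.inv g hg d hd) h0).le

theorem hyp_eff (f : Fr C G T l) (hg : g ∈ G) (h : HypD C l g t P M v) (hE : EffD C G T E) {d : Fin 3 → ℤ} (hd : d ∈ E)
    {a b c : ℝ} (hm : toR d = a • P + b • M + c • v) : 0 ≤ a ∧ 0 ≤ b := by
  have ht := h.t1
  have ht0 : 0 < t := zero_lt_one.trans ht
  obtain ⟨A, hA⟩ := f.amp.exists_int
  obtain ⟨a₁, b₁, c₁, hA1⟩ := h.span (toR A)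
  have hA' := hA
  rw [hA1] at hA'
  obtain ⟨ha₁, hb₁, hc₁⟩ := hyp_open f h hA'
  have hτ := hypB_pos f hg h
  have key : ∀ k : ℤ, 0 ≤ 2 * T P M v * (a₁ * b₁ * c + (a₁ * (t ^ (-k) * b) + b₁ * (t ^ k * a)) * c₁) +
      T v v v * (c₁ ^ 2 * c) := by
    intro k
    have h1 := eff_nn hE hd (G.zpow_mem hg k) hA
    rwa [hm, hyp_zpow h, hA1, hypB_T f hg h] at h1
  have lim : ∀ x y z : ℝ, Filter.Tendsto (fun k : ℕ => x + t ^ (-(k : ℤ)) * y + t ^ (-(k : ℤ)) * (t ^ (-(k : ℤ)) * z))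
      Filter.atTop (nhds x) := by
    intro x y z
    have h1 := (tendsto_const_nhds (x := x)).add (hyp_tend ht y)
    have h2 := h1.add ((hyp_tend ht 1).mul (hyp_tend ht z))
    simp only [mul_one, mul_zero, add_zero] at h2
    exact h2
  have cancel : ∀ k : ℕ, t ^ (-(k : ℤ)) * t ^ (k : ℤ) = 1 := fun k => by
    rw [← zpow_add₀ ht0.ne', neg_add_cancel, zpow_zero]
  constructor
  · have h1 : 0 ≤ 2 * T P M v * (b₁ * c₁) * a := by
      refine ge_of_tendsto' (lim _ (2 * T P M v * (a₁ * b₁ * c) + T v v v * (c₁ ^ 2 * c)) (2 * T P M v * (a₁ * c₁) * b))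
        fun k => ?_
      have h2 := mul_nonneg (zpow_pos ht0 (-(k : ℤ))).le (key (k : ℤ))
      have h3 : t ^ (-(k : ℤ)) * (2 * T P M v * (a₁ * b₁ * c + (a₁ * (t ^ (-(k : ℤ)) * b) + b₁ * (t ^ (k : ℤ) * a)) * c₁) +
          T v v v * (c₁ ^ 2 * c)) = 2 * T P M v * (b₁ * c₁) * a * (t ^ (-(k : ℤ)) * t ^ (k : ℤ)) + t ^ (-(k : ℤ)) *
          (2 * T P M v * (a₁ * b₁ * c) + T v v v * (c₁ ^ 2 * c)) + t ^ (-(k : ℤ)) * (t ^ (-(k : ℤ)) *
          (2 * T P M v * (a₁ * c₁) * b)) := by ring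
      rwa [h3, cancel, mul_one] at h2
    exact nonneg_of_mul_nonneg_right h1 (by positivity)
  · have h1 : 0 ≤ 2 * T P M v * (a₁ * c₁) * b := by
      refine ge_of_tendsto' (lim _ (2 * T P M v * (a₁ * b₁ * c) + T v v v * (c₁ ^ 2 * c)) (2 * T P M v * (b₁ * c₁) * a))
        fun k => ?_
      have h2 := mul_nonneg (zpow_pos ht0 (-(k : ℤ))).le (key (-(k : ℤ)))
      rw [neg_neg] at h2
      have h3 : t ^ (-(k : ℤ)) * (2 * T P M v * (a₁ * b₁ * c + (a₁ * (t ^ (k : ℤ) * b) + b₁ * (t ^ (-(k : ℤ)) * a)) * c₁) +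
          T v v v * (c₁ ^ 2 * c)) = 2 * T P M v * (a₁ * c₁) * b * (t ^ (-(k : ℤ)) * t ^ (k : ℤ)) + t ^ (-(k : ℤ)) *
          (2 * T P M v * (a₁ * b₁ * c) + T v v v * (c₁ ^ 2 * c)) + t ^ (-(k : ℤ)) * (t ^ (-(k : ℤ)) *
          (2 * T P M v * (b₁ * c₁) * a)) := by ring
      rwa [h3, cancel, mul_one] at h2
    exact nonneg_of_mul_nonneg_right h1 (by positivity)

theorem hull_zero3 (f : Fr C G T l) : (0 : V 3) ∈ Hull C := by
  have h1 : toR (0 : Fin 3 → ℤ) ∈ closure C := by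
    rw [toR_zero]
    exact f.amp.zero_closure
  have h2 := hull_int h1
  rwa [toR_zero] at h2

theorem act_int_hull (f : Fr C G T l) {g : GL (Fin 3) ℤ} (hg : g ∈ G) {d : Fin 3 → ℤ} (hd : toR d ∈ closure C) :
    act g (toR d) ∈ Hull C := by
  obtain ⟨d', hd'⟩ := exists_toR_act g d
  rw [← hd']
  refine hull_int ?_
  rw [hd']
  exact f.pres.closure _ hg _ hd

theorem hyp_cc (f : Fr C G T l) (hg : g ∈ G) (h : HypD C l g t P M v) {a b : ℝ} (ha : 0 < a) (hb : 0 < b) :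
    a • P + b • M ∈ Hull C := by
  obtain ⟨d, hd⟩ := h.intD
  have hdC : toR d ∈ closure C := by
    rw [hd]
    exact f.amp.closure_add _ h.Pc _ h.Mc
  obtain ⟨k, x, y, hx, hy, hxy⟩ := hyp_cone h ha hb
  rw [hxy, act_add, act_smul, act_smul, ← act_mul, ← hd]
  exact hull_add f.amp (hull_smul f.amp hx (act_int_hull f (G.zpow_mem hg k) hdC))
    (hull_smul f.amp hy (act_int_hull f (G.mul_mem (G.zpow_mem hg k) hg) hdC))

theorem hypE_hull (f : Fr C G T l) (hg : g ∈ G) (h : HypD C l g t P M v) (hE : EffD C G T E) {x : V 3}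
    (hx : x ∈ closure C) (hxE : x ∈ EffS E) : x ∈ Hull C := by
  obtain ⟨m, e, d, he, hd, hxe⟩ := hxE
  obtain ⟨a, b, c, rfl⟩ := h.span x
  obtain ⟨ha, hb, hc⟩ := h.nn _ _ _ hx
  choose A B D hABD using fun i => h.span (toR (d i))
  have hsum : a • P + b • M + c • v = (∑ i, e i * A i) • P + (∑ i, e i * B i) • M + (∑ i, e i * D i) • v := by
    rw [hxe]
    simp only [Finset.sum_smul, ← Finset.sum_add_distrib]
    refine Finset.sum_congr rfl fun i _ => ?_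
    rw [hABD i, smul_add, smul_add, smul_smul, smul_smul, smul_smul]
  have h1 := h.ind (a - ∑ i, e i * A i) (b - ∑ i, e i * B i) (c - ∑ i, e i * D i) (by
    rw [← sub_eq_zero] at hsum
    rw [← hsum]
    module)
  have hA := fun i => (hyp_eff f hg h hE (hd i) (hABD i)).1
  have hB := fun i => (hyp_eff f hg h hE (hd i) (hABD i)).2
  have key : a = 0 ∨ b = 0 → a = 0 ∧ b = 0 := by
    rintro (h0 | h0)
    · refine ⟨h0, ?_⟩
      have h2 : ∑ i, e i * A i = 0 := by linarith [h1.1]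
      have h3 := (Finset.sum_eq_zero_iff_of_nonneg fun i _ => mul_nonneg (he i) (hA i)).1 h2
      have h4 : ∑ i, e i * B i = 0 := Finset.sum_eq_zero fun i _ => by
        rcases mul_eq_zero.1 (h3 i (Finset.mem_univ i)) with h5 | h5
        · rw [h5, zero_mul]
        · rw [(hyp_int h (hABD i) (Or.inl h5)).2, mul_zero]
      linarith [h1.2.1]
    · refine ⟨?_, h0⟩
      have h2 : ∑ i, e i * B i = 0 := by linarith [h1.2.1]
      have h3 := (Finset.sum_eq_zero_iff_of_nonneg fun i _ => mul_nonneg (he i) (hB i)).1 h2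
      have h4 : ∑ i, e i * A i = 0 := Finset.sum_eq_zero fun i _ => by
        rcases mul_eq_zero.1 (h3 i (Finset.mem_univ i)) with h5 | h5
        · rw [h5, zero_mul]
        · rw [(hyp_int h (hABD i) (Or.inr h5)).1, mul_zero]
      linarith [h1.1]
  obtain ⟨z, hz⟩ := h.intv
  have hvv : v ∈ closure C → ∀ c : ℝ, 0 ≤ c → c • v ∈ Hull C := fun hv c hc => by
    have hv' := hv
    rw [← hz] at hv'
    have h2 := hull_smul f.amp hc (hull_int hv')
    rwa [hz] at h2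
  by_cases h0 : a = 0 ∨ b = 0
  · obtain ⟨ha0, hb0⟩ := key h0
    rw [ha0, hb0, zero_smul, zero_smul, zero_add, zero_add] at hx ⊢
    rcases hc.eq_or_lt with hc0 | hc0
    · rw [← hc0, zero_smul]
      exact hull_zero3 f
    · refine hvv ?_ c hc
      have h2 := f.amp.closure_smul c⁻¹ (inv_pos.2 hc0).le _ hx
      rwa [smul_smul, inv_mul_cancel₀ hc0.ne', one_smul] at h2
  · push Not at h0
    have ha0 := ha.lt_of_ne' h0.1
    have hb0 := hb.lt_of_ne' h0.2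
    by_cases hv : v ∈ closure C
    · exact hull_add f.amp (hyp_cc f hg h ha0 hb0) (hvv hv c hc)
    · rcases hc.eq_or_lt with hc0 | hc0
      · rw [← hc0, zero_smul, add_zero]
        exact hyp_cc f hg h ha0 hb0
      · refine loc_hull f.amp hx (fun h2 => hc0.ne' (h.ind _ _ _ h2).2.2) (hypC_loc f hg h hv hx ?_)
        rw [hyp_l h]
        exact mul_pos hc0 h.lv

/-- the eigenvectors can be scaled -/
theorem hyp_scale (f : Fr C G T l) (h : HypD C l g t P M v) {a b : ℝ} (ha : 0 < a) (hb : 0 < b)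
    (hi : ∃ d : Fin 3 → ℤ, toR d = a • P + b • M) : HypD C l g t (a • P) (b • M) v where
  t1 := h.t1
  gP := by rw [act_smul, h.gP, smul_comm]
  gM := by rw [act_smul, h.gM, smul_comm]
  gv := h.gv
  Pc := f.amp.closure_smul _ ha.le _ h.Pc
  Mc := f.amp.closure_smul _ hb.le _ h.Mc
  P0 := smul_ne_zero ha.ne' h.P0
  M0 := smul_ne_zero hb.ne' h.M0
  lP := by rw [map_smul, h.lP, smul_zero]
  lM := by rw [map_smul, h.lM, smul_zero]
  lv := h.lv
  intD := hi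
  intv := h.intv
  span x := by
    obtain ⟨x1, x2, x3, hx⟩ := h.span x
    refine ⟨x1 / a, x2 / b, x3, ?_⟩
    rw [smul_smul, smul_smul, div_mul_cancel₀ _ ha.ne', div_mul_cancel₀ _ hb.ne', hx]
  ind x1 x2 x3 hx := by
    rw [smul_smul, smul_smul] at hx
    obtain ⟨h1, h2, h3⟩ := h.ind _ _ _ hx
    exact ⟨(mul_eq_zero.1 h1).resolve_right ha.ne', (mul_eq_zero.1 h2).resolve_right hb.ne', h3⟩
  nn x1 x2 x3 hx := by
    rw [smul_smul, smul_smul] at hx
    obtain ⟨h1, h2, h3⟩ := h.nn _ _ _ hx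
    exact ⟨nonneg_of_mul_nonneg_left h1 ha, nonneg_of_mul_nonneg_left h2 hb, h3⟩

/-- the integral nef classes with `l w = 0` -/
theorem hyp_zero (h : HypD C l g t P M v) {w : Fin 3 → ℤ} (hw : w ≠ 0) (hwC : toR w ∈ closure C)
    (hlw : l (toR w) = 0) : ∃ a b : ℝ, 0 < a ∧ 0 < b ∧ toR w = a • P + b • M := by
  obtain ⟨a, b, c, hwe⟩ := h.span (toR w)
  have hwC' := hwC
  rw [hwe] at hwC'
  obtain ⟨ha, hb, -⟩ := h.nn _ _ _ hwC'
  rw [hwe, hyp_l h] at hlw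
  have hc : c = 0 := (mul_eq_zero.1 hlw).resolve_right h.lv.ne'
  have h1 : ¬ (a = 0 ∨ b = 0) := fun h0 => by
    obtain ⟨h2, h3⟩ := hyp_int h hwe h0
    rw [h2, h3, hc, zero_smul, zero_smul, zero_smul, add_zero, add_zero] at hwe
    exact toR_ne_zero hw hwe
  push Not at h1
  exact ⟨a, b, ha.lt_of_ne' h1.1, hb.lt_of_ne' h1.2, by rw [hwe, hc, zero_smul, add_zero]⟩

theorem hypE_all (f : Fr C G T l) (hg : g ∈ G) (h : HypD C l g t P M v) (hE : EffD C G T E) {w : Fin 3 → ℤ} (hw : w ≠ 0)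
    (hwC : toR w ∈ closure C) (hlw : l (toR w) = 0) (hwE : toR w ∈ EffS E) {w' : Fin 3 → ℤ} (hw' : toR w' ∈ closure C)
    (hlw' : l (toR w') = 0) : toR w' ∈ EffS E := by
  by_cases hw0 : w' = 0
  · rw [hw0, toR_zero]
    exact effS_zero
  obtain ⟨a, b, ha, hb, hab⟩ := hyp_zero h hw hwC hlw
  obtain ⟨a', b', ha', hb', hab'⟩ := hyp_zero h hw0 hw' hlw'
  have h' := hyp_scale f h ha hb ⟨w, hab⟩
  obtain ⟨k, x, y, hx, hy, hxy⟩ := hyp_cone h' (div_pos ha' ha) (div_pos hb' hb)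
  rw [smul_smul, smul_smul, div_mul_cancel₀ _ ha.ne', div_mul_cancel₀ _ hb.ne', ← hab, ← hab'] at hxy
  rw [hxy]
  exact effS_act (hE.inv _ (G.zpow_mem hg k)) (effS_add (effS_smul hx hwE) (effS_smul hy (effS_act (hE.inv _ hg) hwE)))

theorem hypE_ex (h : HypD C l g t P M v) (f : Fr C G T l) :
    ∃ w : Fin 3 → ℤ, w ≠ 0 ∧ toR w ∈ closure C ∧ l (toR w) = 0 := by
  obtain ⟨d, hd⟩ := h.intD
  refine ⟨d, ?_, ?_, ?_⟩
  · rintro rfl
    rw [toR_zero] at hd
    have h1 := h.ind 1 1 0 (by rw [one_smul, one_smul, zero_smul, add_zero, ← hd])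
    exact one_ne_zero h1.1
  · rw [hd]
    exact f.amp.closure_add _ h.Pc _ h.Mc
  · rw [hd, map_add, h.lP, h.lM, add_zero]

end Pool.Agent.H60.P3
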