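import Pool.Agent.H60.P3.Lin

/-!
# [H60 P3 ParA] Coordinates in the parabolic case

`Unp g`, `g ≠ 1`, `g ∈ G`.

PROOF.  `N x = g x - x`, `N N N x = 0` (`Unp`).  `g ^ k x = x + k N x + (k (k-1) / 2) N N x` for `k ∈ ℕ`, and the same for `k ∈ ℤ`
(or: `h = g⁻¹` is also unipotent, `h x = x - N x + N N x`).  For `x ∈ closure C`: `g ^ k x / k² → N N x / 2 ∈ closure C`.
`N N ≠ 0`: if `N N = 0` then `g ^ k x / k → N x` and `g ^ (-k) x / k → - N x` are in `closure C` for `x ∈ C`, so `N x = 0` for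
`x ∈ C` (`pointed`); `C` is open and spans, so `N = 0`, `g = 1`.
There is an integral `A ∈ C` with `N N A ≠ 0` (`C` open: otherwise `N N = 0`; rational points are dense in `C`).
`B = N A`, `F = N N A - `: CAREFUL `g B = B + N B = B + F` with `F = N N A`, `g F = F`.
`A`, `B`, `F` are linearly independent (apply `N N`, `N`), so a basis of `ℝ³`.  `l (N x) = 0`: `lB`, `lF`.
`nn`: `x = a A + b B + c F ∈ closure C`: `N N x = a F ∈ closure C`, `F ∈ closure C`, `F ≠ 0`: `a ≥ 0` (`pointed`).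
`ray`: `x = b B + c F ∈ closure C`: `g ^ k x = x + k b F`, divide by `k → ± ∞`: `± b F ∈ closure C`: `b = 0`; `c F ∈ closure C`: `c ≥ 0`.
-/

set_option autoImplicit false

namespace Pool.Agent.H60.P3

open Pool.Agent.H57.KM Pool.Agent.H20.FV

/-- `N x = g x - x` -/
noncomputable def Nm {n : ℕ} (g : GL (Fin n) ℤ) : V n →ₗ[ℝ] V n := actL g - LinearMap.id

theorem nm_apply {n : ℕ} (g : GL (Fin n) ℤ) (x : V n) : Nm g x = act g x - x := rfl

theorem act_nm {n : ℕ} (g : GL (Fin n) ℤ) (x : V n) : act g x = x + Nm g x := by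
  rw [nm_apply]
  abel

section gen

variable {n : ℕ} {g : GL (Fin n) ℤ}

theorem nnn (hu : Unp g) (x : V n) : Nm g (Nm g (Nm g x)) = 0 := by
  simp only [nm_apply, act_sub]
  rw [hu x]
  module

theorem unp_inv (hu : Unp g) (x : V n) : act g⁻¹ x = x - Nm g x + Nm g (Nm g x) := by
  have h1 : act g (x - Nm g x + Nm g (Nm g x)) = x := by
    rw [act_nm g (x - Nm g x + Nm g (Nm g x)), map_add, map_sub, nnn hu]
    abel
  conv_lhs => rw [← h1]
  rw [act_inv_act]

theorem unp_zpow (hu : Unp g) (k : ℤ) : ∀ x : V n,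
    act (g ^ k) x = x + (k : ℝ) • Nm g x + ((k : ℝ) * (k - 1) / 2) • Nm g (Nm g x) := by
  induction k using Int.induction_on with
  | zero =>
    intro x
    rw [zpow_zero, act_one]
    simp
  | succ i ih =>
    intro x
    rw [zpow_add_one, act_mul, ih, act_nm g x, map_add, map_add, nnn hu, add_zero]
    push_cast
    module
  | pred i ih =>
    intro x
    rw [zpow_sub_one, act_mul, ih, unp_inv hu, map_add, map_sub, map_add, map_sub, nnn hu, map_zero, add_zero, sub_zero]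
    push_cast
    module

variable {C : Set (V n)} {G : Subgroup (GL (Fin n) ℤ)} {T : V n →ₗ[ℝ] V n →ₗ[ℝ] V n →ₗ[ℝ] ℝ} {l : V n →ₗ[ℝ] ℝ}

/-- `N N x` is nef if `x` is nef -/
theorem nn_mem (f : Fr C G T l) (hg : g ∈ G) (hu : Unp g) {x : V n} (hx : x ∈ closure C) :
    Nm g (Nm g x) ∈ closure C := by
  have h1 : Filter.Tendsto (fun k : ℕ => ((1 : ℝ) / ((k : ℝ) + 1))) Filter.atTop (nhds 0) :=
    tendsto_one_div_add_atTop_nhds_zero_nat
  have hc : Continuous fun s : ℝ => (s ^ 2) • x + s • Nm g x + ((1 - s) / 2) • Nm g (Nm g x) := by fun_prop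
  have h2 := (hc.tendsto 0).comp h1
  have e0 : ((0 : ℝ) ^ 2) • x + (0 : ℝ) • Nm g x + ((1 - (0 : ℝ)) / 2) • Nm g (Nm g x) = (1 / 2 : ℝ) • Nm g (Nm g x) := by
    norm_num
  rw [e0] at h2
  have h3 : (1 / 2 : ℝ) • Nm g (Nm g x) ∈ closure C := by
    refine isClosed_closure.mem_of_tendsto h2 (Filter.Eventually.of_forall fun k => ?_)
    have hk : (0 : ℝ) < (k : ℝ) + 1 := by positivity
    have h4 := f.amp.closure_smul ((1 / ((k : ℝ) + 1)) ^ 2) (by positivity) _
      (f.pres.closure _ (G.zpow_mem hg ((k : ℤ) + 1)) _ hx)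
    rw [unp_zpow hu] at h4
    have e1 : (1 / ((k : ℝ) + 1)) ^ 2 • (x + (((k : ℤ) + 1 : ℤ) : ℝ) • Nm g x +
        ((((k : ℤ) + 1 : ℤ) : ℝ) * ((((k : ℤ) + 1 : ℤ) : ℝ) - 1) / 2) • Nm g (Nm g x)) =
        ((1 / ((k : ℝ) + 1)) ^ 2) • x + (1 / ((k : ℝ) + 1)) • Nm g x + ((1 - 1 / ((k : ℝ) + 1)) / 2) • Nm g (Nm g x) := by
      push_cast
      rw [smul_add, smul_add, smul_smul, smul_smul]
      congr 2
      · congr 1
        field_simp
      · field_simp
    rw [e1] at h4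
    exact h4
  have h4 := f.amp.closure_smul 2 (by norm_num) _ h3
  rwa [smul_smul, show (2 : ℝ) * (1 / 2) = 1 by norm_num, one_smul] at h4

/-- if `N N x = 0` then `N x = 0` -/
theorem n_zero (f : Fr C G T l) (hg : g ∈ G) (hu : Unp g) {x : V n} (hx : x ∈ closure C) (h0 : Nm g (Nm g x) = 0) :
    Nm g x = 0 := by
  have h1 : Filter.Tendsto (fun k : ℕ => ((1 : ℝ) / ((k : ℝ) + 1))) Filter.atTop (nhds 0) :=
    tendsto_one_div_add_atTop_nhds_zero_nat
  have key : ∀ σ : ℤ, σ = 1 ∨ σ = -1 → (σ : ℝ) • Nm g x ∈ closure C := by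
    intro σ hσ
    have hc : Continuous fun s : ℝ => s • x + (σ : ℝ) • Nm g x := by fun_prop
    have h2 := (hc.tendsto 0).comp h1
    rw [zero_smul, zero_add] at h2
    refine isClosed_closure.mem_of_tendsto h2 (Filter.Eventually.of_forall fun k => ?_)
    have hk : (0 : ℝ) < (k : ℝ) + 1 := by positivity
    have h4 := f.amp.closure_smul (1 / ((k : ℝ) + 1)) (by positivity) _
      (f.pres.closure _ (G.zpow_mem hg (σ * ((k : ℤ) + 1))) _ hx)
    rw [unp_zpow hu, h0, smul_zero, add_zero, smul_add, smul_smul] at h4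
    have e1 : 1 / ((k : ℝ) + 1) * ((σ * ((k : ℤ) + 1) : ℤ) : ℝ) = σ := by
      push_cast
      field_simp
    rw [e1] at h4
    exact h4
  have h2 := key 1 (Or.inl rfl)
  have h3 := key (-1) (Or.inr rfl)
  rw [Int.cast_one, one_smul] at h2
  rw [Int.cast_neg, Int.cast_one, neg_smul, one_smul] at h3
  exact f.amp.pointed _ h2 h3

end gen

theorem parA {C : Set (V 3)} {G : Subgroup (GL (Fin 3) ℤ)} {T : V 3 →ₗ[ℝ] V 3 →ₗ[ℝ] V 3 →ₗ[ℝ] ℝ} {l : V 3 →ₗ[ℝ] ℝ}
    (f : Fr C G T l) {g : GL (Fin 3) ℤ} (hg : g ∈ G) (hg1 : g ≠ 1) (hu : Unp g) :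
    ∃ A B F : V 3, ParD C l g A B F := by
  have hN : Nm g ≠ 0 := by
    intro h0
    refine hg1 (act_inj fun x => ?_)
    rw [act_one, act_nm, h0, LinearMap.zero_apply, add_zero]
  have hNN : Nm g ∘ₗ Nm g ≠ 0 := by
    intro h0
    obtain ⟨s, hs, h1⟩ := exists_int_ne f.amp hN
    refine h1 (n_zero f hg hu (subset_closure hs) ?_)
    rw [← LinearMap.comp_apply, h0, LinearMap.zero_apply]
  obtain ⟨A, hA, hF0⟩ := exists_int_ne f.amp hNN
  rw [LinearMap.comp_apply] at hF0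
  have hFc := nn_mem f hg hu (subset_closure hA)
  have hlN : ∀ x, l (Nm g x) = 0 := fun x => by
    rw [nm_apply, map_sub, f.linv g hg, sub_self]
  have hind : ∀ a b c : ℝ, a • toR A + b • Nm g (toR A) + c • Nm g (Nm g (toR A)) = 0 → a = 0 ∧ b = 0 ∧ c = 0 := by
    intro a b c h0
    have h1 := congrArg (fun x => Nm g (Nm g x)) h0
    simp only [map_add, map_smul, nnn hu, map_zero, smul_zero, add_zero] at h1
    have ha := (smul_eq_zero.1 h1).resolve_right hF0
    rw [ha, zero_smul, zero_add] at h0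
    have h2 := congrArg (fun x => Nm g x) h0
    simp only [map_add, map_smul, nnn hu, map_zero, smul_zero, add_zero] at h2
    have hb := (smul_eq_zero.1 h2).resolve_right hF0
    rw [hb, zero_smul, zero_add] at h0
    exact ⟨ha, hb, (smul_eq_zero.1 h0).resolve_right hF0⟩
  refine ⟨toR A, Nm g (toR A), Nm g (Nm g (toR A)), act_nm _ _, act_nm _ _, ?_, hA, hFc, hF0, ⟨A, rfl⟩, ?_, hlN _, hlN _,
    span3 hind, hind, fun a b c hx => ?_, fun b c hx => ?_⟩
  · rw [act_nm, nnn hu, add_zero]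
  · obtain ⟨x, hx⟩ := exists_toR_act g A
    obtain ⟨y, hy⟩ := exists_toR_act g x
    refine ⟨y - x - (x - A), ?_⟩
    rw [toR_sub, toR_sub, toR_sub, hy, hx]
    simp only [nm_apply, act_sub]
  · have h1 := nn_mem f hg hu hx
    simp only [map_add, map_smul, nnn hu, smul_zero, add_zero] at h1
    exact ray_nn f.amp hFc hF0 h1
  · have h1 := n_zero f hg hu hx (by simp only [map_add, map_smul, nnn hu, smul_zero, add_zero])
    simp only [map_add, map_smul, nnn hu, smul_zero, add_zero] at h1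
    have hb := (smul_eq_zero.1 h1).resolve_right hF0
    rw [hb, zero_smul, zero_add] at hx
    exact ⟨hb, ray_nn f.amp hFc hF0 hx⟩

end Pool.Agent.H60.P3
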