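import Pool.Agent.H60.P3.Cover
import Pool.Agent.H20.FV.Datum

/-!
# [H60 P3 Hul] The hull of the rational points, combinations of effective classes

* `hull_zero`, `hull_add`, `hull_smul`: `Hull C` is a convex cone (`datum_hull_add`, `datum_hull_smul`).
* `hull_int`: integral points of `closure C` are in `Hull C`.  `cone_hull`: `cone S ⊆ Hull C` for `S` integral in `closure C`.
* `loc_hull`: `p ∈ closure C`, `p ≠ 0`, `LocAt (closure C) p`: `p ∈ Hull C` (`cover` for `{p}`).
* `effS_zero`, `effS_add` (`Fin.append`), `effS_smul`, `effS_mem`; `effS_act`: `act g` preserves `EffS E` (`act_toR`).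
* `effS_cone`: `cone S ⊆ EffS E` if `toR s ∈ EffS E` for `s ∈ S`.
-/

set_option autoImplicit false

namespace Pool.Agent.H60.P3

open Pool.Agent.H57.KM Pool.Agent.H20.FV

variable {n : ℕ} {C : Set (V n)}

theorem hull_smul (h : IsAmp C) {c : ℝ} (hc : 0 ≤ c) {x : V n} (hx : x ∈ Hull C) : c • x ∈ Hull C :=
  datum_hull_smul h hc hx

theorem hull_add (h : IsAmp C) {x y : V n} (hx : x ∈ Hull C) (hy : y ∈ Hull C) : x + y ∈ Hull C :=
  datum_hull_add h hx hy

theorem hull_int {s : Fin n → ℤ} (hs : toR s ∈ closure C) : toR s ∈ Hull C := by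
  apply subset_convexHull
  refine ⟨hs, fun i => (s i : ℚ), ?_⟩
  funext i
  simp [toR, qR]

theorem hull_zero (h : IsAmp C) : (0 : V n) ∈ Hull C := by
  apply subset_convexHull
  exact ⟨h.zero_closure, 0, by funext i; simp [qR]⟩

theorem cone_hull (h : IsAmp C) {S : Finset (Fin n → ℤ)} (hS : ∀ s ∈ S, toR s ∈ closure C) : cone S ⊆ Hull C := by
  classical
  rintro x ⟨c, hc, rfl⟩
  have key : ∀ U : Finset (Fin n → ℤ), U ⊆ S → ∑ s ∈ U, c s • toR s ∈ Hull C := by
    intro U
    induction U using Finset.induction_on with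
    | empty =>
      intro _
      rw [Finset.sum_empty]
      exact hull_zero h
    | insert a U ha ih =>
      intro hU
      rw [Finset.sum_insert ha]
      exact hull_add h (hull_smul h (hc a) (hull_int (hS a (hU (Finset.mem_insert_self a U)))))
        (ih (fun t ht => hU (Finset.mem_insert_of_mem ht)))
  exact key S (Finset.Subset.refl S)

theorem loc_hull (h : IsAmp C) {p : V n} (hp : p ∈ closure C) (h0 : p ≠ 0) (hl : LocAt (closure C) p) : p ∈ Hull C := by
  obtain ⟨S, hS, hM⟩ := cover h (M := {p}) isCompact_singleton (by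
    intro q hq
    rw [Set.mem_singleton_iff.1 hq]
    exact hp) (fun hq => h0 (Set.mem_singleton_iff.1 hq).symm) (by
    intro q hq
    rw [Set.mem_singleton_iff.1 hq]
    exact hl)
  exact cone_hull h hS (hM (Set.mem_singleton p))

variable {E : Set (Fin n → ℤ)}

theorem effS_zero : (0 : V n) ∈ EffS E :=
  ⟨0, fun _ => 0, fun _ => 0, fun i => i.elim0, fun i => i.elim0, by simp⟩

theorem effS_mem {d : Fin n → ℤ} (hd : d ∈ E) : toR d ∈ EffS E :=
  ⟨1, fun _ => 1, fun _ => d, fun _ => zero_le_one, fun _ => hd, by simp⟩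

theorem effS_add {x y : V n} (hx : x ∈ EffS E) (hy : y ∈ EffS E) : x + y ∈ EffS E := by
  obtain ⟨m, c, d, hc, hd, rfl⟩ := hx
  obtain ⟨m', c', d', hc', hd', rfl⟩ := hy
  refine ⟨m + m', Fin.append c c', Fin.append d d', ?_, ?_, ?_⟩
  · intro i
    induction i using Fin.addCases with
    | left i => rw [Fin.append_left]; exact hc i
    | right i => rw [Fin.append_right]; exact hc' i
  · intro i
    induction i using Fin.addCases with
    | left i => rw [Fin.append_left]; exact hd i
    | right i => rw [Fin.append_right]; exact hd' i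
  · rw [Fin.sum_univ_add]
    simp only [Fin.append_left, Fin.append_right]

theorem effS_smul {c : ℝ} (hc : 0 ≤ c) {x : V n} (hx : x ∈ EffS E) : c • x ∈ EffS E := by
  obtain ⟨m, a, d, ha, hd, rfl⟩ := hx
  refine ⟨m, fun i => c * a i, d, fun i => mul_nonneg hc (ha i), hd, ?_⟩
  rw [Finset.smul_sum]
  exact Finset.sum_congr rfl fun i _ => (mul_smul _ _ _).symm

theorem effS_cone {S : Finset (Fin n → ℤ)} (hS : ∀ s ∈ S, toR s ∈ EffS E) : cone S ⊆ EffS E := by
  classical
  rintro x ⟨c, hc, rfl⟩
  have key : ∀ U : Finset (Fin n → ℤ), U ⊆ S → ∑ s ∈ U, c s • toR s ∈ EffS E := by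
    intro U
    induction U using Finset.induction_on with
    | empty =>
      intro _
      rw [Finset.sum_empty]
      exact effS_zero
    | insert a U ha ih =>
      intro hU
      rw [Finset.sum_insert ha]
      exact effS_add (effS_smul (hc a) (hS a (hU (Finset.mem_insert_self a U))))
        (ih (fun t ht => hU (Finset.mem_insert_of_mem ht)))
  exact key S (Finset.Subset.refl S)

theorem effS_act {g : GL (Fin n) ℤ} (hE : ∀ d ∈ E, (g : Matrix (Fin n) (Fin n) ℤ).mulVec d ∈ E) {x : V n}
    (hx : x ∈ EffS E) : act g x ∈ EffS E := by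
  obtain ⟨m, c, d, hc, hd, rfl⟩ := hx
  refine ⟨m, c, fun i => (g : Matrix (Fin n) (Fin n) ℤ).mulVec (d i), hc, fun i => hE _ (hd i), ?_⟩
  rw [act_sum]
  refine Finset.sum_congr rfl fun i _ => ?_
  rw [act_smul, act_toR]

end Pool.Agent.H60.P3
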