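import Pool.Agent.H60.P3.ParB
import Pool.Agent.H60.P3.Hul

/-!
# [H60 P3 ParC] The parabolic case: covering, effective classes

`x = a A + b B + c F`; `g` maps `(a, b, c)` to `(a, b + a, c + b)`.

* `parC`: `Cov C G`.  `M' = {x ∈ closure C : a = 1, 0 ≤ b ≤ 1, c ≤ 0}` is compact: closed, and bounded: otherwise `x_j ∈ M'` with
  `c_j → -∞`, `x_j / |c_j| → - F ∈ closure C`, contradiction (`pointed`).  `0 ∉ M'`, `LocAt` on `M'` (`parB`, `l x = a l A`): `cover`: `S'`.
  `S = S' ∪ {A, g A, F}` (integral vectors of `closure C`).  `x ∈ C`: `a > 0` (`l x = a l A > 0`), scale to `a = 1`; `g ^ k` moves `b` to `b + k`: choose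
  `0 ≤ b < 1` (`Int.floor`).  If `c ≤ 0`: `x ∈ M'`.  If `c > 0`: `x = (1 - b) A + b (g A) + c F` (`g A = A + B`).
* `parC_hull`: `closure C ⊆ Hull C`: `x = a A + b B + c F`; `a > 0`: `parB`, `loc_hull`; `a = 0`: `x = c F`, `c ≥ 0` (`ray`).
* `parC_all`: an integral `w ≠ 0` in `closure C` with `l w = 0` is `c F`, `c > 0`; so all such are positive multiples of each other.
* `parC_ex`: `w = F`.
-/

set_option autoImplicit false

namespace Pool.Agent.H60.P3

open Pool.Agent.H57.KM Pool.Agent.H20.FV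

variable {C : Set (V 3)} {G : Subgroup (GL (Fin 3) ℤ)} {T : V 3 →ₗ[ℝ] V 3 →ₗ[ℝ] V 3 →ₗ[ℝ] ℝ} {l : V 3 →ₗ[ℝ] ℝ}
  {g : GL (Fin 3) ℤ} {A B F : V 3} {E : Set (Fin 3 → ℤ)}

private theorem lval (h : ParD C l g A B F) (a b c : ℝ) : l (a • A + b • B + c • F) = a * l A := by
  rw [map_add, map_add, map_smul, map_smul, map_smul, h.lB, h.lF]
  simp

private theorem gact (h : ParD C l g A B F) (a b c : ℝ) :
    act g (a • A + b • B + c • F) = a • A + (b + a) • B + (b + c) • F := by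
  rw [act_add, act_add, act_smul, act_smul, act_smul, h.gA, h.gB, h.gF]
  module

private theorem giact (h : ParD C l g A B F) (a b c : ℝ) :
    act g⁻¹ (a • A + b • B + c • F) = a • A + (b - a) • B + (c - b + a) • F := by
  have h1 : act g (a • A + (b - a) • B + (c - b + a) • F) = a • A + b • B + c • F := by
    rw [gact h]
    module
  rw [← h1, act_inv_act]

private theorem zp (h : ParD C l g A B F) (m : ℤ) : ∀ a b c : ℝ, ∃ c' : ℝ,
    act (g ^ m) (a • A + b • B + c • F) = a • A + (b + m * a) • B + c' • F := by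
  induction m using Int.induction_on with
  | zero =>
    intro a b c
    refine ⟨c, ?_⟩
    rw [zpow_zero, act_one, Int.cast_zero, zero_mul, add_zero]
  | succ i ih =>
    intro a b c
    obtain ⟨c', hc'⟩ := ih a b c
    refine ⟨(b + ((i : ℤ) : ℝ) * a) + c', ?_⟩
    rw [add_comm (i : ℤ) 1, zpow_one_add, act_mul, hc', gact h]
    push_cast
    module
  | pred i ih =>
    intro a b c
    obtain ⟨c', hc'⟩ := ih a b c
    refine ⟨c' - (b + ((-(i : ℤ) : ℤ) : ℝ) * a) + a, ?_⟩
    have h1 : (-(i : ℤ) - 1) = -1 + -(i : ℤ) := by ring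
    rw [h1, zpow_add, zpow_neg_one, act_mul, hc', giact h]
    push_cast
    module

private theorem bdc (f : Fr C G T l) (h : ParD C l g A B F) : ∃ K : ℝ, 0 < K ∧ ∀ b c : ℝ, 0 ≤ b → b ≤ 1 →
    A + b • B + c • F ∈ closure C → -K ≤ c := by
  have hF : -F ∉ closure C := fun hc => h.F0 (f.amp.pointed F h.Fc hc)
  obtain ⟨ε, hε, hball⟩ := Metric.isOpen_iff.1 isClosed_closure.isOpen_compl (-F) hF
  have hK : 0 < (‖A‖ + ‖B‖ + 1) / ε := by positivity
  refine ⟨(‖A‖ + ‖B‖ + 1) / ε, hK, fun b c hb hb1 hx => ?_⟩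
  by_contra hc
  push Not at hc
  have hcpos : 0 < -c := by linarith
  have h1 : (-c)⁻¹ • (A + b • B + c • F) ∈ closure C := f.amp.oc.closure_smul (inv_pos.2 hcpos).le hx
  refine hball ?_ h1
  rw [Metric.mem_ball, dist_eq_norm]
  have h2 : (-c)⁻¹ • (A + b • B + c • F) - -F = (-c)⁻¹ • (A + b • B) := by
    have h3 : (-c)⁻¹ * c = -1 := by
      have : c ≠ 0 := by
        intro h0
        rw [h0] at hcpos
        linarith
      field_simp
    rw [smul_add _ (A + b • B), smul_smul, h3, neg_smul, one_smul, sub_neg_eq_add, neg_add_cancel_right]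
  rw [h2, norm_smul, Real.norm_eq_abs, abs_of_pos (inv_pos.2 hcpos), inv_mul_lt_iff₀ hcpos]
  have h4 : ‖A + b • B‖ ≤ ‖A‖ + ‖B‖ := by
    refine (norm_add_le _ _).trans (add_le_add le_rfl ?_)
    rw [norm_smul, Real.norm_eq_abs, abs_of_nonneg hb]
    exact mul_le_of_le_one_left (norm_nonneg _) hb1
  have h5 : (‖A‖ + ‖B‖ + 1) / ε < -c := by linarith
  rw [div_lt_iff₀ hε] at h5
  linarith

theorem parC (f : Fr C G T l) (hg : g ∈ G) (h : ParD C l g A B F) : Cov C G := by
  classical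
  obtain ⟨K, hK, hb⟩ := bdc f h
  obtain ⟨dA, hdA⟩ := h.intA
  obtain ⟨dF, hdF⟩ := h.intF
  obtain ⟨dB, hdB⟩ := exists_toR_act g dA
  rw [hdA, h.gA] at hdB
  have hAB : A + B ∈ closure C := by
    rw [← h.gA]
    exact f.pres.closure g hg A (subset_closure h.Ac)
  have hlA := f.lpos A h.Ac
  obtain ⟨M', hM'⟩ : ∃ M' : Set (V 3), M' = (fun q : ℝ × ℝ => A + q.1 • B + q.2 • F) ''
      (Set.Icc (0 : ℝ) 1 ×ˢ Set.Icc (-K) 0) ∩ closure C := ⟨_, rfl⟩
  have hMc : IsCompact M' := by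
    rw [hM']
    refine ((isCompact_Icc.prod isCompact_Icc).image ?_).inter_right isClosed_closure
    fun_prop
  have hMs : M' ⊆ closure C := by
    rw [hM']
    exact Set.inter_subset_right
  have hMl : ∀ p ∈ M', 0 < l p := by
    rw [hM']
    rintro _ ⟨⟨q, _, rfl⟩, _⟩
    have h1 := lval h 1 q.1 q.2
    rw [one_smul, one_mul] at h1
    show 0 < l (A + q.1 • B + q.2 • F)
    rw [h1]
    exact hlA
  have h0 : (0 : V 3) ∉ M' := by
    intro h0
    have h1 := hMl 0 h0
    rw [map_zero] at h1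
    exact lt_irrefl _ h1
  obtain ⟨S', hS', hMS⟩ := cover f.amp hMc hMs h0 (fun p hp => parB f hg h (hMs hp) (hMl p hp))
  refine ⟨S' ∪ {dA, dB, dF}, ?_, ?_⟩
  · intro s hs
    rw [Finset.mem_union] at hs
    rcases hs with hs | hs
    · exact hS' s hs
    · simp only [Finset.mem_insert, Finset.mem_singleton] at hs
      rcases hs with rfl | rfl | rfl
      · rw [hdA]
        exact subset_closure h.Ac
      · rw [hdB]
        exact hAB
      · rw [hdF]
        exact h.Fc
  · intro x hx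
    obtain ⟨a, b, c, hxe⟩ := h.span x
    have ha : 0 < a := by
      have h1 := f.lpos x hx
      rw [hxe, lval h] at h1
      exact (mul_pos_iff_of_pos_right hlA).1 h1
    obtain ⟨k, hk⟩ : ∃ k : ℤ, k = ⌊b / a⌋ := ⟨_, rfl⟩
    obtain ⟨c', hc'⟩ := zp h (-k) a b c
    have hy : act (g ^ (-k)) x ∈ C := f.pres _ (G.zpow_mem hg (-k)) x hx
    obtain ⟨b', hb'⟩ : ∃ b' : ℝ, b' = b / a - k := ⟨_, rfl⟩
    have hb0 : 0 ≤ b' := by
      rw [hb', hk]
      linarith [Int.floor_le (b / a)]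
    have hb1 : b' ≤ 1 := by
      rw [hb', hk]
      linarith [Int.lt_floor_add_one (b / a)]
    obtain ⟨z, hz⟩ : ∃ z : V 3, z = A + b' • B + (c' / a) • F := ⟨_, rfl⟩
    have he : act (g ^ (-k)) x = a • z := by
      have e1 : b + ((-k : ℤ) : ℝ) * a = a * b' := by
        rw [hb']
        push_cast
        field_simp
        ring
      have e2 : a * (c' / a) = c' := by field_simp
      rw [hxe, hc', hz, e1, smul_add, smul_add, smul_smul, smul_smul, e2]
    have hzC : z ∈ closure C := by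
      have h1 : z = a⁻¹ • act (g ^ (-k)) x := by
        rw [he, smul_smul, inv_mul_cancel₀ ha.ne', one_smul]
      rw [h1]
      exact f.amp.oc.closure_smul (inv_pos.2 ha).le (subset_closure hy)
    have hcone : z ∈ cone (S' ∪ {dA, dB, dF}) := by
      rcases le_or_gt (c' / a) 0 with hc | hc
      · refine cone_mono Finset.subset_union_left (hMS ?_)
        rw [hM']
        refine ⟨⟨(b', c' / a), ⟨⟨hb0, hb1⟩, hb b' (c' / a) hb0 hb1 ?_, hc⟩, hz.symm⟩, hzC⟩
        rw [← hz]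
        exact hzC
      · have h1 : z = (1 - b') • A + b' • (A + B) + (c' / a) • F := by
          rw [hz]
          module
        rw [h1]
        refine cone_add (cone_add (cone_smul (by linarith) ?_) (cone_smul hb0 ?_)) (cone_smul hc.le ?_)
        · rw [← hdA]
          exact toR_mem_cone (by simp)
        · rw [← hdB]
          exact toR_mem_cone (by simp)
        · rw [← hdF]
          exact toR_mem_cone (by simp)
    refine Set.mem_iUnion₂.2 ⟨g ^ k, G.zpow_mem hg k, mem_image_act.2 ?_⟩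
    rw [← zpow_neg, he]
    exact cone_smul ha.le hcone

theorem parC_hull (f : Fr C G T l) (hg : g ∈ G) (h : ParD C l g A B F) : closure C ⊆ Hull C := by
  intro x hx
  have hlA := f.lpos A h.Ac
  obtain ⟨a, b, c, hxe⟩ := h.span x
  have ha : 0 ≤ a := h.nn a b c (hxe ▸ hx)
  rcases ha.eq_or_lt with h0 | h0
  · rw [← h0, zero_smul, zero_add] at hxe
    obtain ⟨hb, hc⟩ := h.ray b c (hxe ▸ hx)
    rw [hb, zero_smul, zero_add] at hxe
    obtain ⟨d, hd⟩ := h.intF
    rw [hxe, ← hd]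
    refine hull_smul f.amp hc (hull_int ?_)
    rw [hd]
    exact h.Fc
  · have hl : 0 < l x := by
      rw [hxe, lval h]
      exact mul_pos h0 hlA
    refine loc_hull f.amp hx ?_ (parB f hg h hx hl)
    intro hx0
    rw [hx0, map_zero] at hl
    exact lt_irrefl _ hl

theorem parC_all (f : Fr C G T l) (h : ParD C l g A B F) {w : Fin 3 → ℤ} (hw : w ≠ 0)
    (hwC : toR w ∈ closure C) (hlw : l (toR w) = 0) (hwE : toR w ∈ EffS E) {w' : Fin 3 → ℤ} (hw' : toR w' ∈ closure C)
    (hlw' : l (toR w') = 0) : toR w' ∈ EffS E := by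
  have hlA := f.lpos A h.Ac
  have key : ∀ x ∈ closure C, l x = 0 → ∃ c : ℝ, 0 ≤ c ∧ x = c • F := by
    intro x hx hlx
    obtain ⟨a, b, c, hxe⟩ := h.span x
    have ha : a = 0 := by
      rw [hxe, lval h] at hlx
      exact (mul_eq_zero.1 hlx).resolve_right hlA.ne'
    rw [ha, zero_smul, zero_add] at hxe
    obtain ⟨hb, hc⟩ := h.ray b c (hxe ▸ hx)
    rw [hb, zero_smul, zero_add] at hxe
    exact ⟨c, hc, hxe⟩
  obtain ⟨c, hc, hwc⟩ := key _ hwC hlw
  obtain ⟨c', hc', hwc'⟩ := key _ hw' hlw'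
  have hc0 : c ≠ 0 := by
    rintro rfl
    rw [zero_smul] at hwc
    exact toR_ne_zero hw hwc
  have h1 : toR w' = (c' / c) • toR w := by
    rw [hwc', hwc, smul_smul, div_mul_cancel₀ _ hc0]
  rw [h1]
  exact effS_smul (div_nonneg hc' hc) hwE

theorem parC_ex (f : Fr C G T l) (h : ParD C l g A B F) :
    ∃ w : Fin 3 → ℤ, w ≠ 0 ∧ toR w ∈ closure C ∧ l (toR w) = 0 := by
  obtain ⟨d, hd⟩ := h.intF
  refine ⟨d, ?_, ?_, ?_⟩
  · rintro rfl
    rw [toR_zero] at hd
    exact h.F0 hd.symm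
  · rw [hd]
    exact h.Fc
  · rw [hd]
    exact h.lF

end Pool.Agent.H60.P3
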