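import Pool.Agent.H60.P3.Dich
import Pool.Agent.H60.P3.HypA
import Pool.Agent.H60.P3.HypE
import Pool.Agent.H60.P3.ParA
import Pool.Agent.H60.P3.ParC

/-!
# [H60 P3 Abs] The abstract theorem
-/

set_option autoImplicit false

namespace Pool.Agent.H60.P3

open Pool.Agent.H57.KM Pool.Agent.H20.FV

variable {C : Set (V 3)} {G : Subgroup (GL (Fin 3) ℤ)} {T : V 3 →ₗ[ℝ] V 3 →ₗ[ℝ] V 3 →ₗ[ℝ] ℝ} {l : V 3 →ₗ[ℝ] ℝ}
  {E : Set (Fin 3 → ℤ)}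

/-- **the abstract theorem** -/
theorem abs3 (f : Fr C G T l) (hG : (G : Set (GL (Fin 3) ℤ)).Infinite) (hE : EffD C G T E) :
    Cov C G ∧ (∀ x ∈ closure C, x ∈ EffS E → x ∈ Hull C) ∧
      (∃ w : Fin 3 → ℤ, w ≠ 0 ∧ toR w ∈ closure C ∧ l (toR w) = 0) ∧
      ((∃ w : Fin 3 → ℤ, w ≠ 0 ∧ toR w ∈ closure C ∧ l (toR w) = 0 ∧ toR w ∈ EffS E) →
        ∀ w : Fin 3 → ℤ, toR w ∈ closure C → l (toR w) = 0 → toR w ∈ EffS E) := by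
  have hl : l ≠ 0 := by
    intro h0
    obtain ⟨x, hx⟩ := f.amp.ne
    have h1 := f.lpos x hx
    rw [h0, LinearMap.zero_apply] at h1
    exact lt_irrefl _ h1
  obtain ⟨g, hg, hg1, hu | ⟨a, ha, hr⟩⟩ := dich hG hl f.linv
  · obtain ⟨A, B, F, h⟩ := parA f hg hg1 hu
    exact ⟨parC f hg h, fun x hx _ => parC_hull f hg h hx, parC_ex f h,
      fun ⟨w, hw, hwC, hlw, hwE⟩ w' hw' hlw' => parC_all f h hw hwC hlw hwE hw' hlw'⟩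
  · obtain ⟨t, P, M, v, h⟩ := hypA f hg hg1 ha hr
    exact ⟨hypC f hg h, fun x hx hxE => hypE_hull f hg h hE hx hxE, hypE_ex h f,
      fun ⟨w, hw, hwC, hlw, hwE⟩ w' hw' hlw' => hypE_all f hg h hE hw hwC hlw hwE hw' hlw'⟩

end Pool.Agent.H60.P3
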