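import Pool.Agent.H60.P3.Def
import Pool.Agent.H20.FV.Weyl
import Pool.Agent.H20.FV.Dual

/-!
# [H60 P3 Cover] The covering lemma

`cover`: `M ⊆ closure C` compact, `0 ∉ M`, `LocAt` at all points of `M`: there is a finite set `S` of integral vectors in
`closure C` with `M ⊆ cone S`.

PROOF.  Let `ζ` be integral with `toR ζ ∈ dual C` (`exists_int_dual`).  Let `p ∈ M`, `F`, `e` as in `LocAt`, `z = ζ ⬝ᵥ p > 0`.
Choose rational `a_i < p_i / z < b_i` with `z (b_i - a_i) < e`, `a_i = A_i / N`, `b_i = B_i / N` (common denominator `N`).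
The finitely many integral functionals `φ ∈ F`, `N e_i - A_i ζ`, `B_i ζ - N e_i` define a cone which is `cone S_p` (`weyl`).
`toR s ∈ closure C` for `s ∈ S_p`: `A_i ζ(s) ≤ N s_i ≤ B_i ζ(s)`, so `ζ(s) ≥ 0` (`n ≠ 0`), and `s = 0` if `ζ(s) = 0`; if
`ζ(s) > 0` then `q = (z / ζ(s)) s` has `z a_i ≤ q_i ≤ z b_i`, so `‖q - p‖ < e`, and `φ(q) ≥ 0` for `φ ∈ F`: `q ∈ closure C`.
`U = {x : A_i ζ(x) < N x_i < B_i ζ(x), ‖x - p‖ < e}` is an open neighbourhood of `p`, `closure C ∩ U ⊆ cone S_p`.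
Compactness (`IsCompact.induction_on` or `elim_nhds_subcover`): union of the `S_p` (`cone_mono`).

`loc_hull`: `p ∈ closure C`, `p ≠ 0`, `LocAt (closure C) p`: `p ∈ Hull C` (`cover` for `{p}`, `cone_hull`).
-/

set_option autoImplicit false

namespace Pool.Agent.H60.P3

open Pool.Agent.H57.KM Pool.Agent.H20.FV

variable {n : ℕ} {C : Set (V n)}

/-- one point -/
theorem cover_pt (h : IsAmp C) {p : V n} (hp : p ∈ closure C) (h0 : p ≠ 0) (hl : LocAt (closure C) p) :
    ∃ S : Finset (Fin n → ℤ), (∀ s ∈ S, toR s ∈ closure C) ∧ ∃ U : Set (V n), IsOpen U ∧ p ∈ U ∧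
      closure C ∩ U ⊆ cone S := by
  classical
  obtain ⟨ζ, hζ⟩ := exists_int_dual h
  obtain ⟨F, e, he, hF⟩ := hl
  obtain ⟨z, hz⟩ : ∃ z : ℝ, z = toR ζ ⬝ᵥ p := ⟨_, rfl⟩
  have hz0 : 0 < z := by rw [hz]; exact hζ p hp h0
  -- the box
  obtain ⟨ε, hε⟩ : ∃ ε : ℝ, ε = e / (2 * z) := ⟨_, rfl⟩
  have hε0 : 0 < ε := by rw [hε]; positivity
  have hze : z * ε < e := by
    rw [hε]
    have : z * (e / (2 * z)) = e / 2 := by field_simp
    linarith
  obtain ⟨N, hN⟩ := exists_nat_gt (2 / ε)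
  have hN0 : 0 < (N : ℝ) := lt_trans (by positivity) hN
  have hN1 : 2 / (N : ℝ) < ε := by
    rw [div_lt_iff₀ hN0]
    rw [div_lt_iff₀ hε0] at hN
    linarith
  -- `A i < N p i / z < B i`
  obtain ⟨A, hA⟩ : ∃ A : Fin n → ℤ, A = fun i => ⌈(N : ℝ) * (p i / z)⌉ - 1 := ⟨_, rfl⟩
  obtain ⟨B, hB⟩ : ∃ B : Fin n → ℤ, B = fun i => ⌊(N : ℝ) * (p i / z)⌋ + 1 := ⟨_, rfl⟩
  have hA1 : ∀ i, (A i : ℝ) < N * (p i / z) := fun i => by
    rw [hA]
    push_cast
    have := Int.ceil_lt_add_one ((N : ℝ) * (p i / z))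
    linarith
  have hA2 : ∀ i, (N : ℝ) * (p i / z) - 1 ≤ A i := fun i => by
    rw [hA]
    push_cast
    have := Int.le_ceil ((N : ℝ) * (p i / z))
    linarith
  have hB1 : ∀ i, (N : ℝ) * (p i / z) < B i := fun i => by
    rw [hB]
    push_cast
    exact Int.lt_floor_add_one _
  have hB2 : ∀ i, (B i : ℝ) ≤ N * (p i / z) + 1 := fun i => by
    rw [hB]
    push_cast
    have := Int.floor_le ((N : ℝ) * (p i / z))
    linarith
  obtain ⟨T, hT⟩ := weyl (F ∪ (Finset.univ.image fun i : Fin n => (N : ℤ) • Pi.single i 1 - A i • ζ) ∪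
    (Finset.univ.image fun i : Fin n => B i • ζ - (N : ℤ) • Pi.single i 1))
  have eA : ∀ (i : Fin n) (x : V n), toR ((N : ℤ) • Pi.single i 1 - A i • ζ) ⬝ᵥ x = N * x i - A i * (toR ζ ⬝ᵥ x) := by
    intro i x
    rw [toR_sub, toR_smul, toR_smul, sub_dotProduct, smul_dotProduct, smul_dotProduct]
    have h1 : toR (Pi.single i 1 : Fin n → ℤ) = Pi.single i (1 : ℝ) := by
      funext j
      unfold toR
      by_cases hij : j = i
      · subst hij
        rw [Pi.single_eq_same, Pi.single_eq_same, Int.cast_one]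
      · rw [Pi.single_eq_of_ne hij, Pi.single_eq_of_ne hij, Int.cast_zero]
    rw [h1, single_dotProduct, one_mul, smul_eq_mul, smul_eq_mul]
    push_cast
    ring
  have eB : ∀ (i : Fin n) (x : V n), toR (B i • ζ - (N : ℤ) • Pi.single i 1) ⬝ᵥ x = B i * (toR ζ ⬝ᵥ x) - N * x i := by
    intro i x
    rw [toR_sub, toR_smul, toR_smul, sub_dotProduct, smul_dotProduct, smul_dotProduct]
    have h1 : toR (Pi.single i 1 : Fin n → ℤ) = Pi.single i (1 : ℝ) := by
      funext j
      unfold toR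
      by_cases hij : j = i
      · subst hij
        rw [Pi.single_eq_same, Pi.single_eq_same, Int.cast_one]
      · rw [Pi.single_eq_of_ne hij, Pi.single_eq_of_ne hij, Int.cast_zero]
    rw [h1, single_dotProduct, one_mul, smul_eq_mul, smul_eq_mul]
    push_cast
    ring
  have hmem : ∀ x : V n, x ∈ cone T ↔ (∀ φ ∈ F, 0 ≤ toR φ ⬝ᵥ x) ∧ (∀ i, A i * (toR ζ ⬝ᵥ x) ≤ N * x i) ∧
      ∀ i, N * x i ≤ B i * (toR ζ ⬝ᵥ x) := by
    intro x
    rw [← hT]
    constructor
    · intro hx
      refine ⟨fun φ hφ => hx φ (by simp [hφ]), fun i => ?_, fun i => ?_⟩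
      · have h1 := hx ((N : ℤ) • Pi.single i 1 - A i • ζ) (Finset.mem_union_left _ (Finset.mem_union_right _
          (Finset.mem_image_of_mem _ (Finset.mem_univ i))))
        rw [eA] at h1
        linarith
      · have h1 := hx (B i • ζ - (N : ℤ) • Pi.single i 1) (Finset.mem_union_right _
          (Finset.mem_image_of_mem _ (Finset.mem_univ i)))
        rw [eB] at h1
        linarith
    · rintro ⟨h1, h2, h3⟩ φ hφ
      rcases Finset.mem_union.1 hφ with hφ | hφ
      · rcases Finset.mem_union.1 hφ with hφ | hφ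
        · exact h1 φ hφ
        · obtain ⟨i, -, rfl⟩ := Finset.mem_image.1 hφ
          rw [eA]
          linarith [h2 i]
      · obtain ⟨i, -, rfl⟩ := Finset.mem_image.1 hφ
        rw [eB]
        linarith [h3 i]
  have hn : ∃ i : Fin n, p i ≠ 0 := by
    by_contra hcon
    push Not at hcon
    exact h0 (funext hcon)
  obtain ⟨i₀, -⟩ := hn
  refine ⟨T, fun s hs => ?_, {x | ‖x - p‖ < e} ∩ ({x | ∀ i, A i * (toR ζ ⬝ᵥ x) < N * x i} ∩
    {x | ∀ i, N * x i < B i * (toR ζ ⬝ᵥ x)}), ?_, ?_, ?_⟩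
  · obtain ⟨h1, h2, h3⟩ := (hmem _).1 (toR_mem_cone hs)
    obtain ⟨y, hy⟩ : ∃ y : ℝ, y = toR ζ ⬝ᵥ toR s := ⟨_, rfl⟩
    rw [← hy] at h2 h3
    have hAB : ∀ i, (A i : ℝ) < B i := fun i => (hA1 i).trans (hB1 i)
    have hy0 : 0 ≤ y := by
      have h4 := (h2 i₀).trans (h3 i₀)
      have h5 := hAB i₀
      by_contra hneg
      rw [not_le] at hneg
      nlinarith
    rcases hy0.eq_or_lt with hy1 | hy1
    · have : toR s = 0 := by
        funext i
        have h4 := h2 i
        have h5 := h3 i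
        rw [← hy1, mul_zero] at h4 h5
        have h6 : (N : ℝ) * toR s i = 0 := le_antisymm h5 h4
        exact (mul_eq_zero.1 h6).resolve_left hN0.ne'
      rw [this]
      exact h.zero_closure
    · have h4 : (z / y) • toR s ∈ closure C := by
        refine (hF _ ?_).2 fun φ hφ => ?_
        · refine lt_of_le_of_lt ((pi_norm_le_iff_of_nonneg (by positivity : 0 ≤ z * ε)).2 fun i => ?_) hze
          rw [Real.norm_eq_abs, Pi.sub_apply, Pi.smul_apply, smul_eq_mul]
          obtain ⟨q, hq⟩ : ∃ q : ℝ, q = toR s i / y := ⟨_, rfl⟩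
          have hq1 : (A i : ℝ) ≤ N * q := by
            rw [hq, ← mul_div_assoc, le_div_iff₀ hy1]
            exact h2 i
          have hq2 : N * q ≤ (B i : ℝ) := by
            rw [hq, ← mul_div_assoc, div_le_iff₀ hy1]
            exact h3 i
          have e1 : z / y * toR s i - p i = z * (q - p i / z) := by
            rw [hq]
            field_simp
          rw [e1, abs_mul, abs_of_pos hz0]
          refine mul_le_mul_of_nonneg_left ?_ hz0.le
          have h5 : |(N : ℝ) * (q - p i / z)| ≤ 1 := by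
            rw [abs_le]
            have h6 := hA2 i
            have h7 := hB2 i
            constructor
            · rw [mul_sub]
              linarith
            · rw [mul_sub]
              linarith
          rw [abs_mul, abs_of_pos hN0] at h5
          have h6 : |q - p i / z| ≤ 1 / N := by
            rw [le_div_iff₀ hN0]
            linarith
          have h7 : 1 / (N : ℝ) ≤ 2 / N := by
            rw [div_le_div_iff_of_pos_right hN0]
            norm_num
          linarith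
        · rw [dotProduct_smul, smul_eq_mul]
          exact mul_nonneg (by positivity) (h1 φ hφ)
      have h5 := h.closure_smul (y / z) (by positivity) _ h4
      rwa [smul_smul, div_mul_div_cancel₀ hz0.ne', div_self hy1.ne', one_smul] at h5
  · refine (isOpen_lt (by fun_prop) continuous_const).inter ?_
    have hc : Continuous fun x : V n => toR ζ ⬝ᵥ x := dual_cont (toR ζ)
    refine IsOpen.inter ?_ ?_
    · rw [Set.ofPred_forall]
      exact isOpen_iInter_of_finite fun i => isOpen_lt (continuous_const.mul hc) (by fun_prop)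
    · rw [Set.ofPred_forall]
      exact isOpen_iInter_of_finite fun i => isOpen_lt (by fun_prop) (continuous_const.mul hc)
  · refine ⟨?_, fun i => ?_, fun i => ?_⟩
    · show ‖p - p‖ < e
      rw [sub_self, norm_zero]
      exact he
    · rw [← hz]
      have h1 := mul_lt_mul_of_pos_right (hA1 i) hz0
      have e1 : (N : ℝ) * (p i / z) * z = N * p i := by field_simp
      linarith
    · rw [← hz]
      have h1 := mul_lt_mul_of_pos_right (hB1 i) hz0
      have e1 : (N : ℝ) * (p i / z) * z = N * p i := by field_simp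
      linarith
  · rintro x ⟨hx, h1, h2, h3⟩
    exact (hmem x).2 ⟨(hF x h1).1 hx, fun i => (h2 i).le, fun i => (h3 i).le⟩

theorem cover (h : IsAmp C) {M : Set (V n)} (hM : IsCompact M) (hMC : M ⊆ closure C) (h0 : (0 : V n) ∉ M)
    (hl : ∀ p ∈ M, LocAt (closure C) p) :
    ∃ S : Finset (Fin n → ℤ), (∀ s ∈ S, toR s ∈ closure C) ∧ M ⊆ cone S := by
  classical
  have key : ∀ p ∈ M, ∃ S : Finset (Fin n → ℤ), (∀ s ∈ S, toR s ∈ closure C) ∧ ∃ U : Set (V n), IsOpen U ∧ p ∈ U ∧
      closure C ∩ U ⊆ cone S := fun p hp => cover_pt h (hMC hp) (fun h1 => h0 (h1 ▸ hp)) (hl p hp)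
  refine hM.induction_on (p := fun A => ∃ S : Finset (Fin n → ℤ), (∀ s ∈ S, toR s ∈ closure C) ∧ closure C ∩ A ⊆ cone S)
    ?_ ?_ ?_ ?_ |>.imp fun S hS => ⟨hS.1, fun x hx => hS.2 ⟨hMC hx, hx⟩⟩
  · exact ⟨∅, by simp, by simp⟩
  · rintro A B hAB ⟨S, hS, h1⟩
    exact ⟨S, hS, (Set.inter_subset_inter_right _ hAB).trans h1⟩
  · rintro A B ⟨S, hS, h1⟩ ⟨S', hS', h2⟩
    refine ⟨S ∪ S', fun s hs => ?_, ?_⟩
    · rcases Finset.mem_union.1 hs with hs | hs
      · exact hS s hs
      · exact hS' s hs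
    · rintro x ⟨hx, hx1 | hx1⟩
      · exact cone_mono Finset.subset_union_left (h1 ⟨hx, hx1⟩)
      · exact cone_mono Finset.subset_union_right (h2 ⟨hx, hx1⟩)
  · intro p hp
    obtain ⟨S, hS, U, hU, hpU, h1⟩ := key p hp
    exact ⟨U, mem_nhdsWithin_of_mem_nhds (hU.mem_nhds hpU), S, hS, h1⟩

end Pool.Agent.H60.P3
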