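import Pool.Agent.H60.P3.HypE
import Pool.Agent.H20.FV.Datum

/-!
# [H60 P3 Lin] Linear algebra for the coordinates

* `span3`: three linearly independent vectors span `ℝ³`.
* `exists_int_ne`: a linear map `φ ≠ 0` is not zero at some integral point of the open cone `C`.
* `l_nn`: `l ≥ 0` on `closure C`.
* `ray_nn`: `c P ∈ closure C`, `P ∈ closure C`, `P ≠ 0`: `c ≥ 0`.
-/

set_option autoImplicit false

namespace Pool.Agent.H60.P3

open Pool.Agent.H57.KM Pool.Agent.H20.FV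

theorem span3 {P M v : V 3} (h : ∀ a b c : ℝ, a • P + b • M + c • v = 0 → a = 0 ∧ b = 0 ∧ c = 0) (x : V 3) :
    ∃ a b c : ℝ, x = a • P + b • M + c • v := by
  have h1 : LinearIndependent ℝ ![P, M, v] := by
    rw [Fintype.linearIndependent_iff]
    intro c hc
    rw [Fin.sum_univ_three] at hc
    obtain ⟨h1, h2, h3⟩ := h (c 0) (c 1) (c 2) hc
    intro i
    fin_cases i
    · exact h1
    · exact h2
    · exact h3
  have h2 := h1.span_eq_top_of_card_eq_finrank (by simp)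
  have h3 : x ∈ Submodule.span ℝ (Set.range ![P, M, v]) := by
    rw [h2]
    trivial
  obtain ⟨c, hc⟩ := (Submodule.mem_span_range_iff_exists_fun ℝ).1 h3
  rw [Fin.sum_univ_three] at hc
  exact ⟨c 0, c 1, c 2, hc.symm⟩

theorem exists_int_ne {n : ℕ} {C : Set (V n)} (h : IsAmp C) {φ : V n →ₗ[ℝ] V n} (hφ : φ ≠ 0) :
    ∃ s : Fin n → ℤ, toR s ∈ C ∧ φ (toR s) ≠ 0 := by
  have h1 : (C ∩ {x | φ x ≠ 0}).Nonempty := by
    by_contra hcon
    rw [Set.not_nonempty_iff_eq_empty, Set.eq_empty_iff_forall_notMem] at hcon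
    apply hφ
    refine LinearMap.ext fun x => ?_
    obtain ⟨A, hA⟩ := h.ne
    obtain ⟨ε, hε, h2⟩ := h.oc.exists_sub hA (-x)
    have h3 : φ A = 0 := by
      by_contra h0
      exact hcon A ⟨hA, h0⟩
    have h4 : φ (A - ε • -x) = 0 := by
      by_contra h0
      exact hcon _ ⟨h2, h0⟩
    rw [map_sub, h3, map_smul, map_neg, zero_sub, smul_neg, neg_neg] at h4
    exact (smul_eq_zero.1 h4).resolve_left hε.ne'
  have hc : Continuous φ := φ.continuous_of_finiteDimensional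
  obtain ⟨q, hq1, hq2⟩ := exists_rat (h.op.inter ((isOpen_ne).preimage hc)) h1
  obtain ⟨d, hd, s, hs⟩ := datum_clear q
  have hd0 : (0 : ℝ) < d := by exact_mod_cast hd
  refine ⟨s, ?_, ?_⟩
  · rw [hs]
    exact h.smul _ hd0 _ hq1
  · rw [hs, map_smul]
    exact smul_ne_zero hd0.ne' hq2

variable {n : ℕ} {C : Set (V n)} {G : Subgroup (GL (Fin n) ℤ)} {T : V n →ₗ[ℝ] V n →ₗ[ℝ] V n →ₗ[ℝ] ℝ} {l : V n →ₗ[ℝ] ℝ}

theorem l_nn (f : Fr C G T l) {x : V n} (hx : x ∈ closure C) : 0 ≤ l x := by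
  have hcl : IsClosed {x : V n | 0 ≤ l x} := isClosed_le continuous_const l.continuous_of_finiteDimensional
  exact closure_minimal (fun y hy => (f.lpos y hy).le) hcl hx

theorem ray_nn (h : IsAmp C) {P : V n} (hP : P ∈ closure C) (hP0 : P ≠ 0) {c : ℝ} (hc : c • P ∈ closure C) : 0 ≤ c := by
  by_contra hneg
  rw [not_le] at hneg
  have h1 := h.closure_smul (-c)⁻¹ (inv_pos.2 (neg_pos.2 hneg)).le _ hc
  have e : (-c)⁻¹ • c • P = -P := by
    rw [smul_smul, inv_neg, neg_mul, inv_mul_cancel₀ hneg.ne, neg_smul, one_smul]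
  rw [e] at h1
  exact hP0 (h.pointed P hP h1)

end Pool.Agent.H60.P3
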