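import Pool.Agent.H20.FV.Basic

/-!
# [H60 P3 Def] PICARD NUMBER THREE (MP_e49dc9_ag): definitions of the abstract theorem and plan

`C` is the ample cone in `V n = ℝ ^ n` (`N^1(Y)` with the lattice `ℤ ^ n`), `G` the image of `Aut(Y)`, `T` the intersection
form, `l` the linear form `c_2 / 12`.

* `LocAt K p`: near `p` the set `K` is given by finitely many integral functionals.
* `Fr C G T l`: the frame; `loc` is the local theorem of `PositiveSecondChern`.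
* `Hull C`: the convex hull of the rational points of `closure C`.
* `EffS E`: the combinations of the elements of `E` with coefficients `≥ 0`.
* `EffD C G T E`: the properties of the set `E` of the integral effective classes.
* `Unp g`: `(g - 1) ^ 3 = 0`.  `Rel3 a g`: `(g - 1) (g ^ 2 - a g + 1) = 0`.
* `HypD`, `ParD`: the coordinates in the hyperbolic and in the parabolic case.

THEOREM (`abs3`).  `n = 3`, `G` infinite: `Cov C G`; the points of `closure C ∩ EffS E` are in `Hull C`; there is an integral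
`w ≠ 0` in `closure C` with `l w = 0`; if one such `w` is in `EffS E` then all are.

PLAN.
* `Cover`: a compact set `M ⊆ closure C` with `LocAt` at all points is in `cone S`, `S` finite, integral, in `closure C`.
* `Dich`: there is `g ∈ G`, `g ≠ 1` with `Unp g` or `Rel3 a g`, `a ≥ 3` (`g = 1` modulo `3`, trace).
* `HypA`: `Rel3 a g`, `a ≥ 3`, `g ≠ 1` gives `HypD`.  `HypB`: `T` in coordinates.  `HypC`: `LocAt` and `Cov`.  `HypE`: effective
  classes.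
* `ParA`: `Unp g`, `g ≠ 1` gives `ParD`.  `ParB`: `LocAt`.  `ParC`: `Cov`.  `ParE`: effective classes.
* `Abs`: `abs3`.
* geometry (helper20): `Geo*`, `Fin`.
-/

set_option autoImplicit false

namespace Pool.Agent.H60.P3

open Pool.Agent.H57.KM Pool.Agent.H20.FV

variable {n : ℕ}

/-- near `p` the set `K` is given by finitely many integral functionals -/
def LocAt (K : Set (V n)) (p : V n) : Prop :=
  ∃ (F : Finset (Fin n → ℤ)) (e : ℝ), 0 < e ∧ ∀ q, ‖q - p‖ < e → (q ∈ K ↔ ∀ φ ∈ F, 0 ≤ toR φ ⬝ᵥ q)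

/-- the frame: ample cone `C`, group `G`, intersection form `T`, `l = c_2 / 12` -/
structure Fr (C : Set (V n)) (G : Subgroup (GL (Fin n) ℤ)) (T : V n →ₗ[ℝ] V n →ₗ[ℝ] V n →ₗ[ℝ] ℝ)
    (l : V n →ₗ[ℝ] ℝ) : Prop where
  amp : IsAmp C
  pres : Pres G C
  s12 : ∀ u v w, T u v w = T v u w
  s23 : ∀ u v w, T u v w = T u w v
  nn : ∀ u ∈ closure C, ∀ v ∈ closure C, ∀ w ∈ closure C, 0 ≤ T u v w
  pos : ∀ u ∈ C, ∀ w ∈ closure C, w ≠ 0 → 0 < T u u w
  lpos : ∀ u ∈ C, 0 < l u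
  Tinv : ∀ g ∈ G, ∀ u v w, T (act g u) (act g v) (act g w) = T u v w
  linv : ∀ g ∈ G, ∀ u, l (act g u) = l u
  loc : ∀ p ∈ closure C, p ≠ 0 → (∀ w ∈ closure C, w ≠ 0 → T (p + w) (p + w) (p + w) = 0 → 0 < l w) →
    LocAt (closure C) p

/-- the convex hull of the rational points of `closure C` -/
def Hull (C : Set (V n)) : Set (V n) := convexHull ℝ {x | x ∈ closure C ∧ ∃ q : Fin n → ℚ, x = qR q}

/-- combinations of elements of `E` with coefficients `≥ 0` -/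
def EffS (E : Set (Fin n → ℤ)) : Set (V n) :=
  {x | ∃ (m : ℕ) (c : Fin m → ℝ) (d : Fin m → Fin n → ℤ), (∀ i, 0 ≤ c i) ∧ (∀ i, d i ∈ E) ∧ x = ∑ i, c i • toR (d i)}

/-- the integral effective classes -/
structure EffD (C : Set (V n)) (G : Subgroup (GL (Fin n) ℤ)) (T : V n →ₗ[ℝ] V n →ₗ[ℝ] V n →ₗ[ℝ] ℝ)
    (E : Set (Fin n → ℤ)) : Prop where
  inv : ∀ g ∈ G, ∀ d ∈ E, (g : Matrix (Fin n) (Fin n) ℤ).mulVec d ∈ E
  int : ∀ a b c : Fin n → ℤ, ∃ z : ℤ, T (toR a) (toR b) (toR c) = z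
  pos : ∀ a : Fin n → ℤ, toR a ∈ C → ∀ d ∈ E, d ≠ 0 → 0 < T (toR a) (toR a) (toR d)

/-- `(g - 1) ^ 3 = 0` -/
def Unp (g : GL (Fin n) ℤ) : Prop :=
  ∀ x : V n, act g (act g (act g x)) = (3 : ℝ) • act g (act g x) - (3 : ℝ) • act g x + x

/-- `(g - 1) (g ^ 2 - a g + 1) = 0` -/
def Rel3 (a : ℤ) (g : GL (Fin n) ℤ) : Prop :=
  ∀ x : V n, act g (act g (act g x)) = ((a : ℝ) + 1) • act g (act g x) - ((a : ℝ) + 1) • act g x + x

/-- coordinates in the hyperbolic case -/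
structure HypD (C : Set (V 3)) (l : V 3 →ₗ[ℝ] ℝ) (g : GL (Fin 3) ℤ) (t : ℝ) (P M v : V 3) : Prop where
  t1 : 1 < t
  gP : act g P = t • P
  gM : act g M = t⁻¹ • M
  gv : act g v = v
  Pc : P ∈ closure C
  Mc : M ∈ closure C
  P0 : P ≠ 0
  M0 : M ≠ 0
  lP : l P = 0
  lM : l M = 0
  lv : 0 < l v
  intD : ∃ d : Fin 3 → ℤ, toR d = P + M
  intv : ∃ z : Fin 3 → ℤ, toR z = v
  span : ∀ x : V 3, ∃ a b c : ℝ, x = a • P + b • M + c • v
  ind : ∀ a b c : ℝ, a • P + b • M + c • v = 0 → a = 0 ∧ b = 0 ∧ c = 0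
  nn : ∀ a b c : ℝ, a • P + b • M + c • v ∈ closure C → 0 ≤ a ∧ 0 ≤ b ∧ 0 ≤ c

/-- coordinates in the parabolic case: `g A = A + B`, `g B = B + F`, `g F = F` -/
structure ParD (C : Set (V 3)) (l : V 3 →ₗ[ℝ] ℝ) (g : GL (Fin 3) ℤ) (A B F : V 3) : Prop where
  gA : act g A = A + B
  gB : act g B = B + F
  gF : act g F = F
  Ac : A ∈ C
  Fc : F ∈ closure C
  F0 : F ≠ 0
  intA : ∃ d : Fin 3 → ℤ, toR d = A
  intF : ∃ d : Fin 3 → ℤ, toR d = F
  lB : l B = 0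
  lF : l F = 0
  span : ∀ x : V 3, ∃ a b c : ℝ, x = a • A + b • B + c • F
  ind : ∀ a b c : ℝ, a • A + b • B + c • F = 0 → a = 0 ∧ b = 0 ∧ c = 0
  nn : ∀ a b c : ℝ, a • A + b • B + c • F ∈ closure C → 0 ≤ a
  ray : ∀ b c : ℝ, b • B + c • F ∈ closure C → b = 0 ∧ 0 ≤ c

end Pool.Agent.H60.P3
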