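import Pool.Agent.H60.P3.Def

/-!
# [H60 P3 Dich] An infinite group contains a unipotent or a hyperbolic element

PROOF.  The reduction of `G` modulo `3` has finite image in `Matrix (Fin 3) (Fin 3) (ZMod 3)`, so there are `g₁ ≠ g₂` in `G` with the
same image; `g = g₁ g₂⁻¹ ∈ G`, `g ≠ 1`, `g = 1 + 3 B` with an integral matrix `B`.  `det g = ± 1` and `det g = 1` modulo `3`, so
`det g = 1`.  `l (g x) = l x`, `l ≠ 0`: `det (g - 1) = 0` (over `ℝ`, so over `ℤ`).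
`rel_mat`: for a `3 × 3` matrix `m` with `det m = 1`, `det (m - 1) = 0`, `t = trace m`: `m ^ 3 = t m ^ 2 - t m + 1` (the
characteristic polynomial is `x ^ 3 - t x ^ 2 + s x - 1` with `1 - t + s - 1 = 0`).  Explicit: `Matrix.det_fin_three`, entries.
The sum of the principal `2 × 2` minors of `m - 1 = 3 B` is `s - 2 t + 3 = 3 - t`, and it is divisible by `9`.
So `t = 3 - 9 k`.  `t = 3`: `Unp g`.  `t ≥ 12`: `Rel3 (t - 1) g`.  `t ≤ -6`: `m ^ 2` has determinant `1`, `det (m ^ 2 - 1) = 0`,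
trace `t ^ 2 - 2 s = t ^ 2 - 2 t ≥ 48`: `Rel3 (t ^ 2 - 2 t - 1) (g ^ 2)`, and `g ^ 2 ≠ 1` as the trace of `1` is `3`.
-/

set_option autoImplicit false

namespace Pool.Agent.H60.P3

open Pool.Agent.H57.KM Pool.Agent.H20.FV

/-- the characteristic polynomial -/
theorem rel_mat (m : Matrix (Fin 3) (Fin 3) ℤ) (h1 : m.det = 1) (h2 : (m - 1).det = 0) :
    m * m * m = (m 0 0 + m 1 1 + m 2 2) • (m * m) - (m 0 0 + m 1 1 + m 2 2) • m + 1 := by
  rw [Matrix.det_fin_three] at h1 h2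
  simp only [Matrix.sub_apply, Matrix.one_apply, Fin.isValue, Fin.reduceEq, if_true, if_false] at h2
  ext i j
  simp only [Matrix.add_apply, Matrix.sub_apply, Matrix.smul_apply, Matrix.mul_apply, Fin.sum_univ_three, smul_eq_mul]
  fin_cases i <;> fin_cases j <;>
    simp only [Matrix.one_apply, Fin.isValue, Fin.reduceEq, Fin.zero_eta, Fin.mk_one, Fin.reduceFinMk, if_true, if_false]
  · linear_combination (1 - m 0 0) * h1 + m 0 0 * h2
  · linear_combination (0 - m 0 1) * h1 + m 0 1 * h2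
  · linear_combination (0 - m 0 2) * h1 + m 0 2 * h2
  · linear_combination (0 - m 1 0) * h1 + m 1 0 * h2
  · linear_combination (1 - m 1 1) * h1 + m 1 1 * h2
  · linear_combination (0 - m 1 2) * h1 + m 1 2 * h2
  · linear_combination (0 - m 2 0) * h1 + m 2 0 * h2
  · linear_combination (0 - m 2 1) * h1 + m 2 1 * h2
  · linear_combination (1 - m 2 2) * h1 + m 2 2 * h2

theorem rel_act {g : GL (Fin 3) ℤ} {t : ℤ}
    (h : (g : Matrix (Fin 3) (Fin 3) ℤ) * (g : Matrix (Fin 3) (Fin 3) ℤ) * (g : Matrix (Fin 3) (Fin 3) ℤ) =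
      t • ((g : Matrix (Fin 3) (Fin 3) ℤ) * (g : Matrix (Fin 3) (Fin 3) ℤ)) - t • (g : Matrix (Fin 3) (Fin 3) ℤ) + 1)
    (x : V 3) : act g (act g (act g x)) = (t : ℝ) • act g (act g x) - (t : ℝ) • act g x + x := by
  have h1 := congrArg ((Int.castRingHom ℝ).mapMatrix (m := Fin 3)) h
  rw [map_mul, map_mul, map_add, map_sub, map_zsmul, map_zsmul, map_mul, map_one] at h1
  obtain ⟨m, hm⟩ : ∃ m, m = (Int.castRingHom ℝ).mapMatrix (g : Matrix (Fin 3) (Fin 3) ℤ) := ⟨_, rfl⟩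
  rw [← hm] at h1
  have e : ∀ x, act g x = m.mulVec x := fun x => by rw [hm]; rfl
  have k1 : act g (act g (act g x)) = (m * m * m).mulVec x := by
    rw [e, e, e, Matrix.mulVec_mulVec, Matrix.mulVec_mulVec]
  have k2 : act g (act g x) = (m * m).mulVec x := by
    rw [e, e, Matrix.mulVec_mulVec]
  rw [k1, k2, e, h1, Matrix.add_mulVec, Matrix.sub_mulVec, Matrix.one_mulVec]
  congr 2
  · rw [← Int.cast_smul_eq_zsmul ℝ, Matrix.smul_mulVec]
  · rw [← Int.cast_smul_eq_zsmul ℝ, Matrix.smul_mulVec]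

/-- `l` gives the eigenvalue `1` -/
theorem det_l {g : GL (Fin 3) ℤ} {l : V 3 →ₗ[ℝ] ℝ} (hl : l ≠ 0) (h : ∀ u, l (act g u) = l u) :
    ((g : Matrix (Fin 3) (Fin 3) ℤ) - 1).det = 0 := by
  obtain ⟨r, hr⟩ : ∃ r : V 3, ∀ x, l x = r ⬝ᵥ x := by
    refine ⟨fun i => l (Pi.single i 1), fun x => ?_⟩
    have h1 := LinearMap.pi_apply_eq_sum_univ l x
    rw [h1]
    unfold dotProduct
    refine Finset.sum_congr rfl fun i _ => ?_
    rw [smul_eq_mul, mul_comm]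
    congr 2
    funext j
    by_cases hij : i = j
    · subst hij
      rw [if_pos rfl, Pi.single_eq_same]
    · rw [if_neg hij, Pi.single_eq_of_ne' hij]
  have hr0 : r ≠ 0 := by
    rintro rfl
    apply hl
    refine LinearMap.ext fun x => ?_
    rw [hr, zero_dotProduct, LinearMap.zero_apply]
  obtain ⟨m, hm⟩ : ∃ m, m = (Int.castRingHom ℝ).mapMatrix (g : Matrix (Fin 3) (Fin 3) ℤ) := ⟨_, rfl⟩
  have e : ∀ x, act g x = m.mulVec x := fun x => by rw [hm]; rfl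
  have h1 : Matrix.vecMul r (m - 1) = 0 := by
    rw [Matrix.vecMul_sub, Matrix.vecMul_one, sub_eq_zero]
    refine dotProduct_eq _ _ fun x => ?_
    rw [← Matrix.dotProduct_mulVec, ← e, ← hr, ← hr, h]
  have h2 : (m - 1).det = 0 := Matrix.exists_vecMul_eq_zero_iff.1 ⟨r, hr0, h1⟩
  have h3 : (Int.castRingHom ℝ) ((g : Matrix (Fin 3) (Fin 3) ℤ) - 1).det = 0 := by
    rw [RingHom.map_det, map_sub, map_one, ← hm]
    exact h2
  have h4 : ((((g : Matrix (Fin 3) (Fin 3) ℤ) - 1).det : ℤ) : ℝ) = 0 := h3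
  exact_mod_cast h4

theorem dich {G : Subgroup (GL (Fin 3) ℤ)} (hG : (G : Set (GL (Fin 3) ℤ)).Infinite) {l : V 3 →ₗ[ℝ] ℝ} (hl : l ≠ 0)
    (hinv : ∀ g ∈ G, ∀ u, l (act g u) = l u) :
    ∃ g ∈ G, g ≠ 1 ∧ (Unp g ∨ ∃ a : ℤ, 3 ≤ a ∧ Rel3 a g) := by
  -- an element which is `1` modulo `3`
  obtain ⟨g, hg, hg1, B, hB⟩ : ∃ g ∈ G, g ≠ 1 ∧ ∃ B : Matrix (Fin 3) (Fin 3) ℤ,
      (g : Matrix (Fin 3) (Fin 3) ℤ) = 1 + (3 : ℤ) • B := by
    obtain ⟨g₁, h1, g₂, h2, hne, heq⟩ := hG.exists_ne_map_eq_of_mapsTo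
      (f := fun g : GL (Fin 3) ℤ => (g : Matrix (Fin 3) (Fin 3) ℤ).map (Int.cast : ℤ → ZMod 3))
      (t := Set.univ) (fun _ _ => Set.mem_univ _) Set.finite_univ
    have h3 : ∀ i j, ∃ q : ℤ, (g₁ : Matrix (Fin 3) (Fin 3) ℤ) i j = (g₂ : Matrix (Fin 3) (Fin 3) ℤ) i j + 3 * q := by
      intro i j
      have h4 := congrFun (congrFun heq i) j
      simp only [Matrix.map_apply] at h4
      obtain ⟨q, hq⟩ := (ZMod.intCast_eq_intCast_iff_dvd_sub _ _ _).1 h4.symm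
      refine ⟨q, ?_⟩
      push_cast at hq
      linarith
    choose q hq using h3
    refine ⟨g₁ * g₂⁻¹, G.mul_mem h1 (G.inv_mem h2), fun h => hne (mul_inv_eq_one.1 h),
      Matrix.of q * ((g₂⁻¹ : GL (Fin 3) ℤ) : Matrix (Fin 3) (Fin 3) ℤ), ?_⟩
    have h5 : (g₁ : Matrix (Fin 3) (Fin 3) ℤ) = (g₂ : Matrix (Fin 3) (Fin 3) ℤ) + (3 : ℤ) • Matrix.of q := by
      ext i j
      rw [Matrix.add_apply, Matrix.smul_apply, Matrix.of_apply, smul_eq_mul, hq]
    rw [Units.val_mul, h5, add_mul, smul_mul_assoc, Units.mul_inv]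
  obtain ⟨m, hm⟩ : ∃ m, m = (g : Matrix (Fin 3) (Fin 3) ℤ) := ⟨_, rfl⟩
  rw [← hm] at hB
  have hent : ∀ i j, m i j = (if i = j then 1 else 0) + 3 * B i j := fun i j => by
    rw [hB, Matrix.add_apply, Matrix.smul_apply, Matrix.one_apply, smul_eq_mul]
  have e00 : m 0 0 = 1 + 3 * B 0 0 := hent 0 0
  have e11 : m 1 1 = 1 + 3 * B 1 1 := hent 1 1
  have e22 : m 2 2 = 1 + 3 * B 2 2 := hent 2 2
  have e01 : m 0 1 = 3 * B 0 1 := (hent 0 1).trans (by simp)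
  have e02 : m 0 2 = 3 * B 0 2 := (hent 0 2).trans (by simp)
  have e10 : m 1 0 = 3 * B 1 0 := (hent 1 0).trans (by simp)
  have e12 : m 1 2 = 3 * B 1 2 := (hent 1 2).trans (by simp)
  have e20 : m 2 0 = 3 * B 2 0 := (hent 2 0).trans (by simp)
  have e21 : m 2 1 = 3 * B 2 1 := (hent 2 1).trans (by simp)
  -- the determinant
  have hdet : m.det = 1 := by
    have h1 : IsUnit m.det := by
      rw [hm]
      exact (Matrix.isUnit_iff_isUnit_det _).1 g.isUnit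
    have h2 : ∃ q : ℤ, m.det = 1 + 3 * q := by
      rw [Matrix.det_fin_three, e00, e11, e22, e01, e02, e10, e12, e20, e21]
      exact ⟨(B 0 0 + B 1 1 + B 2 2) + 3 * (B 0 0 * B 1 1 - B 0 1 * B 1 0 + (B 0 0 * B 2 2 - B 0 2 * B 2 0) +
        (B 1 1 * B 2 2 - B 1 2 * B 2 1)) + 9 * (B 0 0 * B 1 1 * B 2 2 - B 0 0 * B 1 2 * B 2 1 - B 0 1 * B 1 0 * B 2 2 +
        B 0 1 * B 1 2 * B 2 0 + B 0 2 * B 1 0 * B 2 1 - B 0 2 * B 1 1 * B 2 0), by ring⟩
    obtain ⟨q, hq⟩ := h2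
    rcases Int.isUnit_iff.1 h1 with h3 | h3
    · exact h3
    · omega
  have hdet1 : (m - 1).det = 0 := by
    rw [hm]
    exact det_l hl (hinv g hg)
  have hrel := rel_mat m hdet hdet1
  obtain ⟨t, ht⟩ : ∃ t, t = m 0 0 + m 1 1 + m 2 2 := ⟨_, rfl⟩
  rw [← ht] at hrel
  have hd1 := hdet
  have hd2 := hdet1
  rw [Matrix.det_fin_three] at hd1 hd2
  simp only [Matrix.sub_apply, Matrix.one_apply, Fin.isValue, Fin.reduceEq, if_true, if_false] at hd2
  -- `s = t`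
  have hst : m 0 0 * m 1 1 - m 0 1 * m 1 0 + (m 0 0 * m 2 2 - m 0 2 * m 2 0) + (m 1 1 * m 2 2 - m 1 2 * m 2 1) = t := by
    rw [ht]
    linear_combination hd1 - hd2
  obtain ⟨k, hk⟩ : ∃ k : ℤ, 3 - t = 9 * k := by
    refine ⟨B 0 0 * B 1 1 - B 0 1 * B 1 0 + (B 0 0 * B 2 2 - B 0 2 * B 2 0) + (B 1 1 * B 2 2 - B 1 2 * B 2 1), ?_⟩
    have h1 := hst
    have h2 := ht
    rw [e00, e11, e22, e01, e02, e10, e12, e20, e21] at h1
    rw [e00, e11, e22] at h2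
    linear_combination (-1) * h1 - 2 * h2
  rcases lt_trichotomy t 3 with h3 | h3 | h3
  · -- the square
    have h4 : t ≤ -6 := by omega
    have hdet' : (m * m).det = 1 := by rw [Matrix.det_mul, hdet, one_mul]
    have hdet1' : (m * m - 1).det = 0 := by
      have e : m * m - 1 = (m - 1) * (m + 1) := by noncomm_ring
      rw [e, Matrix.det_mul, hdet1, zero_mul]
    have hrel' := rel_mat (m * m) hdet' hdet1'
    have htr : (m * m) 0 0 + (m * m) 1 1 + (m * m) 2 2 = t ^ 2 - 2 * t := by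
      simp only [Matrix.mul_apply, Fin.sum_univ_three]
      have h5 : t ^ 2 = (m 0 0 + m 1 1 + m 2 2) ^ 2 := by rw [ht]
      rw [h5]
      linear_combination (-2) * hst
    rw [htr] at hrel'
    have h5 : 48 ≤ t ^ 2 - 2 * t := by nlinarith
    have hg2 : ((g * g : GL (Fin 3) ℤ) : Matrix (Fin 3) (Fin 3) ℤ) = m * m := by rw [Units.val_mul, ← hm]
    refine ⟨g * g, G.mul_mem hg hg, fun h0 => ?_, Or.inr ⟨t ^ 2 - 2 * t - 1, by omega, fun x => ?_⟩⟩
    · rw [h0, Units.val_one] at hg2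
      rw [← hg2] at htr
      simp only [Matrix.one_apply_eq] at htr
      omega
    · have h6 := rel_act (g := g * g) (t := t ^ 2 - 2 * t) (by rw [hg2]; exact hrel') x
      have e : (((t ^ 2 - 2 * t - 1 : ℤ) : ℝ) + 1) = ((t ^ 2 - 2 * t : ℤ) : ℝ) := by
        push_cast
        ring
      rw [e]
      exact h6
  · refine ⟨g, hg, hg1, Or.inl fun x => ?_⟩
    have h6 := rel_act (g := g) (t := t) (by rw [← hm]; exact hrel) x
    rw [h3] at h6
    exact_mod_cast h6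
  · refine ⟨g, hg, hg1, Or.inr ⟨t - 1, by omega, fun x => ?_⟩⟩
    have h6 := rel_act (g := g) (t := t) (by rw [← hm]; exact hrel) x
    have e : (((t - 1 : ℤ) : ℝ) + 1) = ((t : ℤ) : ℝ) := by
      push_cast
      ring
    rw [e]
    exact h6

end Pool.Agent.H60.P3
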