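import Pool.Agent.H60.P3.Def

/-!
# [H60 P3 HypB] The cubic form in the hyperbolic case

`T (g x) (g y) (g z) = T x y z` gives: `T` of three of the vectors `P`, `M`, `v` (eigenvalues `t`, `t⁻¹`, `1`, `t > 1`) is zero unless
the product of the eigenvalues is `1`: only `T P M v` and `T v v v` (and permutations, `s12`, `s23`) are left.
`hypB_T`: `T x x y = 2 τ (a b c' + (a b' + b a') c) + ν c² c'`, `τ = T P M v`, `ν = T v v v`.
`hypB_pos`: `τ > 0`: take `A = a P + b M + c v ∈ C` (`f.amp.ne`, `span`), `b, c ≥ 0` (`nn`, `subset_closure`):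
`0 < T A A P = 2 τ b c`.
-/

set_option autoImplicit false

namespace Pool.Agent.H60.P3

open Pool.Agent.H57.KM Pool.Agent.H20.FV

variable {C : Set (V 3)} {G : Subgroup (GL (Fin 3) ℤ)} {T : V 3 →ₗ[ℝ] V 3 →ₗ[ℝ] V 3 →ₗ[ℝ] ℝ} {l : V 3 →ₗ[ℝ] ℝ}
  {g : GL (Fin 3) ℤ} {t : ℝ} {P M v : V 3}

/-- three eigenvectors -/
theorem t_zero (f : Fr C G T l) (hg : g ∈ G) {x y z : V 3} {α β γ : ℝ} (hx : act g x = α • x) (hy : act g y = β • y)
    (hz : act g z = γ • z) (h : α * β * γ ≠ 1) : T x y z = 0 := by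
  have h1 := f.Tinv g hg x y z
  rw [hx, hy, hz] at h1
  simp only [map_smul, LinearMap.smul_apply, smul_eq_mul] at h1
  have h2 : (α * β * γ - 1) * T x y z = 0 := by linarith
  exact (mul_eq_zero.1 h2).resolve_left (sub_ne_zero.2 h)

theorem hypB_T (f : Fr C G T l) (hg : g ∈ G) (h : HypD C l g t P M v) (a b c a' b' c' : ℝ) :
    T (a • P + b • M + c • v) (a • P + b • M + c • v) (a' • P + b' • M + c' • v) =
      2 * T P M v * (a * b * c' + (a * b' + b * a') * c) + T v v v * (c ^ 2 * c') := by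
  have ht := h.t1
  have ht0 : 0 < t := zero_lt_one.trans ht
  have hti : t * t⁻¹ = 1 := mul_inv_cancel₀ ht0.ne'
  have hi0 : 0 < t⁻¹ := inv_pos.2 ht0
  have hi1 : t⁻¹ < 1 := inv_lt_one_of_one_lt₀ ht
  have hv : act g v = (1 : ℝ) • v := by rw [one_smul, h.gv]
  have n1 : t * t * t ≠ 1 := by nlinarith
  have n2 : t * t * t⁻¹ ≠ 1 := by rw [mul_assoc, hti]; linarith
  have n3 : t * t⁻¹ * t ≠ 1 := by rw [hti]; linarith
  have n4 : t⁻¹ * t * t ≠ 1 := by rw [mul_comm t⁻¹, hti]; linarith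
  have n5 : t * t * 1 ≠ 1 := by nlinarith
  have n6 : t * 1 * t ≠ 1 := by nlinarith
  have n7 : 1 * t * t ≠ 1 := by nlinarith
  have n8 : t * 1 * 1 ≠ 1 := by linarith
  have n9 : 1 * t * 1 ≠ 1 := by linarith
  have n10 : 1 * 1 * t ≠ 1 := by linarith
  have m1 : t⁻¹ * t⁻¹ * t⁻¹ ≠ 1 := by nlinarith [mul_pos hi0 hi0]
  have m2 : t⁻¹ * t⁻¹ * t ≠ 1 := by rw [mul_assoc, mul_comm t⁻¹ t, hti]; linarith
  have m3 : t⁻¹ * t * t⁻¹ ≠ 1 := by rw [mul_comm t⁻¹ t, hti]; linarith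
  have m4 : t * t⁻¹ * t⁻¹ ≠ 1 := by rw [hti]; linarith
  have m5 : t⁻¹ * t⁻¹ * 1 ≠ 1 := by nlinarith
  have m6 : t⁻¹ * 1 * t⁻¹ ≠ 1 := by nlinarith
  have m7 : 1 * t⁻¹ * t⁻¹ ≠ 1 := by nlinarith
  have m8 : t⁻¹ * 1 * 1 ≠ 1 := by linarith
  have m9 : 1 * t⁻¹ * 1 ≠ 1 := by linarith
  have m10 : 1 * 1 * t⁻¹ ≠ 1 := by linarith
  have e1 : T P v M = T P M v := f.s23 _ _ _
  have e2 : T M P v = T P M v := f.s12 _ _ _
  have e3 : T v P M = T P M v := by rw [f.s12, e1]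
  have e4 : T M v P = T P M v := by rw [f.s23, e2]
  have e5 : T v M P = T P M v := by rw [f.s12, e4]
  simp only [map_add, map_smul, LinearMap.add_apply, LinearMap.smul_apply, smul_eq_mul, t_zero f hg h.gP h.gP h.gP n1,
    t_zero f hg h.gP h.gP h.gM n2, t_zero f hg h.gP h.gM h.gP n3, t_zero f hg h.gM h.gP h.gP n4,
    t_zero f hg h.gP h.gP hv n5, t_zero f hg h.gP hv h.gP n6, t_zero f hg hv h.gP h.gP n7,
    t_zero f hg h.gP hv hv n8, t_zero f hg hv h.gP hv n9, t_zero f hg hv hv h.gP n10,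
    t_zero f hg h.gM h.gM h.gM m1,
    t_zero f hg h.gM h.gM h.gP m2, t_zero f hg h.gM h.gP h.gM m3, t_zero f hg h.gP h.gM h.gM m4,
    t_zero f hg h.gM h.gM hv m5, t_zero f hg h.gM hv h.gM m6, t_zero f hg hv h.gM h.gM m7,
    t_zero f hg h.gM hv hv m8, t_zero f hg hv h.gM hv m9, t_zero f hg hv hv h.gM m10, e1, e2, e3, e4, e5]
  ring

theorem hypB_pos (f : Fr C G T l) (hg : g ∈ G) (h : HypD C l g t P M v) : 0 < T P M v := by
  obtain ⟨A, hA⟩ := f.amp.ne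
  obtain ⟨a, b, c, rfl⟩ := h.span A
  obtain ⟨-, hb, hc⟩ := h.nn _ _ _ (subset_closure hA)
  have h1 := f.pos _ hA P h.Pc h.P0
  have h2 := hypB_T f hg h a b c 1 0 0
  rw [one_smul, zero_smul, zero_smul, add_zero, add_zero] at h2
  rw [h2] at h1
  have h3 : 0 < T P M v * (2 * (b * c)) := by nlinarith
  exact pos_of_mul_pos_left h3 (by positivity)

end Pool.Agent.H60.P3
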