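import Pool.Agent.H60.P3.HypB
import Pool.Agent.H60.P3.Hul

/-!
# [H60 P3 HypC] The hyperbolic case: local structure and covering

`x = a P + b M + c v` has the coordinates `(a, b, c)`; `g` maps them to `(t a, b / t, c)`.

* `hypC_pos`: `v ∉ closure C`, `p ∈ closure C`, `0 < l p` (so `c > 0`): `a, b > 0` (if `a = 0`: `g ^ n p → c v`, so `v ∈ closure C`).
* `hypC_loc`: then `LocAt (closure C) p`: `f.loc`: `w = (a', b', c') ∈ closure C`, `w ≠ 0`, `l w ≤ 0`: `c' = 0`, `a', b' ≥ 0` not both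
  zero, `T (p+w)³ = c (6 τ (a + a') (b + b') + ν c²) > T p³ ≥ 0` (`hypB_T`, `hypB_pos`).
* `hyp_cone`: for `a, b > 0` there is `k : ℤ` such that `a P + b M` is in the cone over `g ^ k (P + M)`, `g ^ (k+1) (P + M)`.
* `hypC`: `Cov C G`.  Let `d = P + M`, `d' = g d`, integral.  CASE `v ∈ closure C`: `S = {d, d', v}`: `x ∈ C` has `a, b > 0`
  (`x - ε P, x - ε M ∈ C`), `c ≥ 0`; `g ^ (-k) x` is in `cone S` by `hyp_cone`.
  CASE `v ∉ closure C`: fix `x₀ = (a₀, b₀, c₀) ∈ C`, scaled to `c₀ = 1`.  `K = {x ∈ closure C : c = 1, b ≤ a ≤ t² b}`, `R` large,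
  `M' = {x ∈ K : a ≤ R}` is compact, `0 ∉ M'`, `LocAt` on `M'`; `cover`: `S'`.  `S = S' ∪ {d, d'}`.  For `x ∈ C` scale to `c = 1`,
  apply `g ^ k`: `b ≤ a ≤ t² b`.  If `a > R := t² (a₀ + b₀)`: `x' = (s a, s b, 1)` with `s < 1`, `s a = R`: `s a ≥ a₀`,
  `s b ≥ s a / t² ≥ b₀`: `x' ∈ x₀ + cone (P, M) ⊆ closure C`, `x' ∈ M'`, `x = x' + (1 - s) (a P + b M)`, and `a P + b M` is in
  the cone over `d = (1, 1, 0)`, `d' = (t, t⁻¹, 0)` as `1 ≤ a / b ≤ t²`.
-/

set_option autoImplicit false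

namespace Pool.Agent.H60.P3

open Pool.Agent.H57.KM Pool.Agent.H20.FV

variable {C : Set (V 3)} {G : Subgroup (GL (Fin 3) ℤ)} {T : V 3 →ₗ[ℝ] V 3 →ₗ[ℝ] V 3 →ₗ[ℝ] ℝ} {l : V 3 →ₗ[ℝ] ℝ}
  {g : GL (Fin 3) ℤ} {t : ℝ} {P M v : V 3}

theorem act_zpow_eig {n : ℕ} {g : GL (Fin n) ℤ} {x : V n} {s : ℝ} (hs : s ≠ 0) (h : act g x = s • x) (k : ℤ) :
    act (g ^ k) x = s ^ k • x := by
  have h' : act g⁻¹ x = s⁻¹ • x := by
    have h1 := act_inv_act g x
    rw [h, act_smul] at h1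
    rw [← h1, smul_smul, inv_mul_cancel₀ hs, one_smul, h1]
  induction k using Int.induction_on with
  | zero => rw [zpow_zero, zpow_zero, act_one, one_smul]
  | succ i ih => rw [zpow_add_one, act_mul, h, act_smul, ih, smul_smul, zpow_add_one₀ hs, mul_comm]
  | pred i ih => rw [zpow_sub_one, act_mul, h', act_smul, ih, smul_smul, zpow_sub_one₀ hs, mul_comm]

theorem hyp_zpow (h : HypD C l g t P M v) (k : ℤ) (a b c : ℝ) :
    act (g ^ k) (a • P + b • M + c • v) = (t ^ k * a) • P + (t ^ (-k) * b) • M + c • v := by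
  have ht : t ≠ 0 := (zero_lt_one.trans h.t1).ne'
  have h3 : act g v = (1 : ℝ) • v := by rw [one_smul, h.gv]
  rw [act_add, act_add, act_smul, act_smul, act_smul, act_zpow_eig ht h.gP, act_zpow_eig (inv_ne_zero ht) h.gM,
    act_zpow_eig one_ne_zero h3, one_zpow, one_smul, smul_smul, smul_smul, inv_zpow, ← zpow_neg, mul_comm a, mul_comm b]

/-- the cone over `d = P + M`, `g d` -/
theorem hyp_two (h : HypD C l g t P M v) {a b : ℝ} (h1 : b ≤ a) (h2 : a ≤ t ^ 2 * b) :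
    ∃ x y : ℝ, 0 ≤ x ∧ 0 ≤ y ∧ a • P + b • M = x • (P + M) + y • (act g (P + M)) := by
  have ht := h.t1
  have ht0 : 0 < t := zero_lt_one.trans ht
  have hti : t * t⁻¹ = 1 := mul_inv_cancel₀ ht0.ne'
  have hti1 : t⁻¹ < 1 := inv_lt_one_of_one_lt₀ ht
  have hd : 0 < t - t⁻¹ := by linarith
  refine ⟨(t * b - t⁻¹ * a) / (t - t⁻¹), (a - b) / (t - t⁻¹), ?_, div_nonneg (by linarith) hd.le, ?_⟩
  · apply div_nonneg _ hd.le
    have h3 := mul_le_mul_of_nonneg_left h2 (inv_pos.2 ht0).le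
    have h4 : t⁻¹ * (t ^ 2 * b) = t * b := by
      rw [sq, ← mul_assoc, ← mul_assoc, mul_comm t⁻¹ t, hti, one_mul]
    linarith
  · rw [act_add, h.gP, h.gM]
    have e1 : (t * b - t⁻¹ * a) / (t - t⁻¹) + (a - b) / (t - t⁻¹) * t = a := by
      rw [div_mul_eq_mul_div, ← add_div, div_eq_iff hd.ne']
      ring
    have e2 : (t * b - t⁻¹ * a) / (t - t⁻¹) + (a - b) / (t - t⁻¹) * t⁻¹ = b := by
      rw [div_mul_eq_mul_div, ← add_div, div_eq_iff hd.ne']
      ring
    conv_lhs => rw [← e1, ← e2]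
    module

/-- the power of `g` which brings `a / b` to `[1, t ^ 2)` -/
theorem hyp_norm {t : ℝ} (ht : 1 < t) {a b : ℝ} (ha : 0 < a) (hb : 0 < b) :
    ∃ k : ℤ, t ^ k * b ≤ t ^ (-k) * a ∧ t ^ (-k) * a ≤ t ^ 2 * (t ^ k * b) := by
  have ht0 : 0 < t := zero_lt_one.trans ht
  obtain ⟨k, h1, h2⟩ := exists_mem_Ico_zpow (div_pos ha hb) (show (1 : ℝ) < t ^ 2 by nlinarith)
  have hk : 0 < t ^ k := zpow_pos ht0 k
  have e1 : (t ^ 2) ^ k = t ^ k * t ^ k := by
    rw [sq, mul_zpow]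
  have e2 : t ^ (-k) * t ^ k = 1 := by
    rw [zpow_neg, inv_mul_cancel₀ hk.ne']
  refine ⟨k, ?_, ?_⟩
  · rw [e1, le_div_iff₀ hb] at h1
    have h3 := mul_le_mul_of_nonneg_left h1 (zpow_pos ht0 (-k)).le
    calc t ^ k * b = (t ^ (-k) * t ^ k) * (t ^ k * b) := by rw [e2, one_mul]
      _ = t ^ (-k) * (t ^ k * t ^ k * b) := by ring
      _ ≤ _ := h3
  · rw [zpow_add_one₀ (by positivity), e1, div_lt_iff₀ hb] at h2
    have h3 := mul_le_mul_of_nonneg_left h2.le (zpow_pos ht0 (-k)).le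
    calc t ^ (-k) * a ≤ t ^ (-k) * (t ^ k * t ^ k * t ^ 2 * b) := h3
      _ = (t ^ (-k) * t ^ k) * (t ^ 2 * (t ^ k * b)) := by ring
      _ = _ := by rw [e2, one_mul]

theorem hyp_cone (h : HypD C l g t P M v) {a b : ℝ} (ha : 0 < a) (hb : 0 < b) :
    ∃ (k : ℤ) (x y : ℝ), 0 ≤ x ∧ 0 ≤ y ∧
      a • P + b • M = act (g ^ k) (x • (P + M) + y • (act g (P + M))) := by
  have ht0 : 0 < t := zero_lt_one.trans h.t1
  obtain ⟨k, h1, h2⟩ := hyp_norm h.t1 ha hb
  obtain ⟨x, y, hx, hy, hxy⟩ := hyp_two h h1 h2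
  refine ⟨k, x, y, hx, hy, ?_⟩
  have h3 := hyp_zpow h k (t ^ (-k) * a) (t ^ k * b) 0
  rw [zero_smul, add_zero, add_zero, hxy, ← mul_assoc, ← mul_assoc, ← zpow_add₀ ht0.ne', ← zpow_add₀ ht0.ne',
    add_neg_cancel, neg_add_cancel, zpow_zero, one_mul, one_mul] at h3
  exact h3.symm

theorem hyp_tend {t : ℝ} (ht : 1 < t) (c : ℝ) : Filter.Tendsto (fun k : ℕ => t ^ (-(k : ℤ)) * c) Filter.atTop (nhds 0) := by
  have h1 : Filter.Tendsto (fun k : ℕ => (t⁻¹) ^ k) Filter.atTop (nhds 0) :=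
    tendsto_pow_atTop_nhds_zero_of_lt_one (inv_pos.2 (zero_lt_one.trans ht)).le (inv_lt_one_of_one_lt₀ ht)
  have h2 := h1.mul_const c
  rw [zero_mul] at h2
  refine h2.congr fun k => ?_
  rw [zpow_neg, zpow_natCast, inv_pow]

theorem hyp_mem (f : Fr C G T l) (hg : g ∈ G) (h : HypD C l g t P M v) (k : ℤ) {a b c : ℝ}
    (hp : a • P + b • M + c • v ∈ closure C) : (t ^ k * a) • P + (t ^ (-k) * b) • M + c • v ∈ closure C := by
  rw [← hyp_zpow h]
  exact f.pres.closure _ (G.zpow_mem hg k) _ hp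

theorem hypC_pos (f : Fr C G T l) (hg : g ∈ G) (h : HypD C l g t P M v) (hv : v ∉ closure C) {a b c : ℝ}
    (hp : a • P + b • M + c • v ∈ closure C) (hc : 0 < c) : 0 < a ∧ 0 < b := by
  obtain ⟨ha, hb, -⟩ := h.nn _ _ _ hp
  have key : c • v ∈ closure C → False := fun h1 => hv (by
    have h2 := f.amp.closure_smul c⁻¹ (inv_pos.2 hc).le _ h1
    rwa [smul_smul, inv_mul_cancel₀ hc.ne', one_smul] at h2)
  refine ⟨ha.lt_of_ne fun h0 => key ?_, hb.lt_of_ne fun h0 => key ?_⟩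
  · have h1 : Filter.Tendsto (fun k : ℕ => (t ^ (-(k : ℤ)) * b) • M + c • v) Filter.atTop (nhds ((0 : ℝ) • M + c • v)) :=
      ((hyp_tend h.t1 b).smul_const M).add tendsto_const_nhds
    rw [zero_smul, zero_add] at h1
    refine isClosed_closure.mem_of_tendsto h1 (Filter.Eventually.of_forall fun k => ?_)
    have h2 := hyp_mem f hg h (k : ℤ) hp
    rwa [← h0, mul_zero, zero_smul, zero_add] at h2
  · have h1 : Filter.Tendsto (fun k : ℕ => (t ^ (-(k : ℤ)) * a) • P + c • v) Filter.atTop (nhds ((0 : ℝ) • P + c • v)) :=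
      ((hyp_tend h.t1 a).smul_const P).add tendsto_const_nhds
    rw [zero_smul, zero_add] at h1
    refine isClosed_closure.mem_of_tendsto h1 (Filter.Eventually.of_forall fun k => ?_)
    have h2 := hyp_mem f hg h (-(k : ℤ)) hp
    rwa [← h0, mul_zero, zero_smul, add_zero] at h2

theorem hyp_l (h : HypD C l g t P M v) (a b c : ℝ) : l (a • P + b • M + c • v) = c * l v := by
  rw [map_add, map_add, map_smul, map_smul, map_smul, h.lP, h.lM, smul_zero, smul_zero, zero_add, zero_add, smul_eq_mul]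

theorem hypC_loc (f : Fr C G T l) (hg : g ∈ G) (h : HypD C l g t P M v) (hv : v ∉ closure C) {p : V 3}
    (hp : p ∈ closure C) (hlp : 0 < l p) : LocAt (closure C) p := by
  obtain ⟨a, b, c, rfl⟩ := h.span p
  rw [hyp_l h] at hlp
  have hc : 0 < c := pos_of_mul_pos_left hlp h.lv.le
  obtain ⟨ha, hb⟩ := hypC_pos f hg h hv hp hc
  refine f.loc _ hp (fun h0 => hc.ne' (h.ind _ _ _ h0).2.2) fun w hw hw0 h0 => ?_
  obtain ⟨a', b', c', rfl⟩ := h.span w
  obtain ⟨ha', hb', hc'⟩ := h.nn _ _ _ hw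
  rw [hyp_l h]
  rcases hc'.eq_or_lt with h1 | h1
  · exfalso
    rw [← h1] at h0 hw0
    have e : a • P + b • M + c • v + (a' • P + b' • M + (0 : ℝ) • v) = (a + a') • P + (b + b') • M + c • v := by module
    rw [e, hypB_T f hg h] at h0
    have h2 := f.nn _ hp _ hp _ hp
    rw [hypB_T f hg h] at h2
    have hτ := hypB_pos f hg h
    have h3 : 0 < a' ∨ 0 < b' := by
      by_contra hcon
      push Not at hcon
      have e1 : a' = 0 := le_antisymm hcon.1 ha'
      have e2 : b' = 0 := le_antisymm hcon.2 hb'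
      exact hw0 (by rw [e1, e2, zero_smul, zero_smul, zero_smul, add_zero, add_zero])
    have h4 : 0 < a' * b + a * b' + a' * b' := by
      have h5 := mul_nonneg ha' hb'
      rcases h3 with h3 | h3
      · have h6 := mul_pos h3 hb
        have h7 := mul_nonneg ha.le hb'
        linarith
      · have h6 := mul_pos ha h3
        have h7 := mul_nonneg ha' hb.le
        linarith
    have h5 := mul_pos (mul_pos hτ hc) h4
    nlinarith
  · exact mul_pos h1 h.lv

/-- the interior points -/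
theorem hyp_open (f : Fr C G T l) (h : HypD C l g t P M v) {a b c : ℝ}
    (hp : a • P + b • M + c • v ∈ C) : 0 < a ∧ 0 < b ∧ 0 < c := by
  refine ⟨?_, ?_, ?_⟩
  · obtain ⟨ε, hε, h1⟩ := f.amp.oc.exists_sub hp P
    have e : a • P + b • M + c • v - ε • P = (a - ε) • P + b • M + c • v := by module
    rw [e] at h1
    have := (h.nn _ _ _ (subset_closure h1)).1
    linarith
  · obtain ⟨ε, hε, h1⟩ := f.amp.oc.exists_sub hp M
    have e : a • P + b • M + c • v - ε • M = a • P + (b - ε) • M + c • v := by module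
    rw [e] at h1
    have := (h.nn _ _ _ (subset_closure h1)).2.1
    linarith
  · have h1 := f.lpos _ hp
    rw [hyp_l h] at h1
    exact pos_of_mul_pos_left h1 h.lv.le

theorem hyp_fix (h : HypD C l g t P M v) (k : ℤ) : act (g ^ k) v = v := by
  have h3 : act g v = (1 : ℝ) • v := by rw [one_smul, h.gv]
  rw [act_zpow_eig one_ne_zero h3, one_zpow, one_smul]

/-- the compact part -/
theorem hyp_cpt (C : Set (V 3)) (P M v : V 3) (t R : ℝ) :
    IsCompact ((fun z : ℝ × ℝ => z.1 • P + z.2 • M + (1 : ℝ) • v) '' ((Set.Icc (0 : ℝ) R ×ˢ Set.Icc (0 : ℝ) R) ∩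
      {z | z.2 ≤ z.1 ∧ z.1 ≤ t ^ 2 * z.2 ∧ z.1 • P + z.2 • M + (1 : ℝ) • v ∈ closure C})) := by
  have hc : Continuous (fun z : ℝ × ℝ => z.1 • P + z.2 • M + (1 : ℝ) • v) := by fun_prop
  refine ((isCompact_Icc.prod isCompact_Icc).inter_right ?_).image hc
  refine (isClosed_le continuous_snd continuous_fst).inter ((isClosed_le continuous_fst ?_).inter ?_)
  · fun_prop
  · exact isClosed_closure.preimage hc

theorem hypC (f : Fr C G T l) (hg : g ∈ G) (h : HypD C l g t P M v) : Cov C G := by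
  classical
  obtain ⟨d, hd⟩ := h.intD
  obtain ⟨z, hz⟩ := h.intv
  obtain ⟨d', hd'⟩ := exists_toR_act g d
  have hdC : toR d ∈ closure C := by
    rw [hd]
    exact f.amp.closure_add _ h.Pc _ h.Mc
  have hd'C : toR d' ∈ closure C := by
    rw [hd']
    exact f.pres.closure _ hg _ hdC
  rw [hd] at hd'
  by_cases hv : v ∈ closure C
  · refine ⟨{d, d', z}, ?_, fun x hx => ?_⟩
    · intro s hs
      rw [Finset.mem_insert, Finset.mem_insert, Finset.mem_singleton] at hs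
      rcases hs with rfl | rfl | rfl
      · exact hdC
      · exact hd'C
      · rwa [hz]
    · obtain ⟨a, b, c, rfl⟩ := h.span x
      obtain ⟨ha, hb, hc⟩ := hyp_open f h hx
      obtain ⟨k, x, y, hx0, hy0, hxy⟩ := hyp_cone h ha hb
      refine Set.mem_iUnion₂.2 ⟨g ^ k, G.zpow_mem hg k, x • (P + M) + y • (act g (P + M)) + c • v, ?_, ?_⟩
      · rw [← hd, ← hz] at *
        rw [← hd']
        exact cone_add (cone_add (cone_smul hx0 (toR_mem_cone (by simp))) (cone_smul hy0 (toR_mem_cone (by simp))))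
          (cone_smul hc.le (toR_mem_cone (by simp)))
      · rw [act_add, ← hxy, act_smul, hyp_fix h]
  · have ht0 : 0 < t := zero_lt_one.trans h.t1
    -- a point of `C`
    obtain ⟨a₀, b₀, ha₀, hb₀, hx₀⟩ : ∃ a₀ b₀ : ℝ, 0 < a₀ ∧ 0 < b₀ ∧ a₀ • P + b₀ • M + (1 : ℝ) • v ∈ C := by
      obtain ⟨x, hx⟩ := f.amp.ne
      obtain ⟨a, b, c, rfl⟩ := h.span x
      obtain ⟨ha, hb, hc⟩ := hyp_open f h hx
      refine ⟨c⁻¹ * a, c⁻¹ * b, by positivity, by positivity, ?_⟩
      have h1 := f.amp.smul c⁻¹ (inv_pos.2 hc) _ hx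
      rwa [smul_add, smul_add, smul_smul, smul_smul, smul_smul, inv_mul_cancel₀ hc.ne'] at h1
    obtain ⟨R, hR⟩ : ∃ R : ℝ, R = t ^ 2 * (a₀ + b₀) := ⟨_, rfl⟩
    have ht2 : (1 : ℝ) < t ^ 2 := by nlinarith [h.t1]
    have hRa : a₀ + b₀ ≤ R := by
      rw [hR]
      nlinarith
    have hR0 : 0 < R := by linarith
    obtain ⟨S', hS', hMS⟩ := cover f.amp (hyp_cpt C P M v t R) (by
        rintro _ ⟨z, ⟨-, -, -, hz⟩, rfl⟩
        exact hz) (by
        rintro ⟨z, -, hz⟩
        exact one_ne_zero (h.ind _ _ _ hz).2.2) (by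
        rintro _ ⟨z, ⟨-, -, -, hz⟩, rfl⟩
        refine hypC_loc f hg h hv hz ?_
        rw [hyp_l h, one_mul]
        exact h.lv)
    -- the cone
    have hbig : ∀ a b : ℝ, b ≤ a → a ≤ t ^ 2 * b → a • P + b • M + (1 : ℝ) • v ∈ closure C →
        a • P + b • M + (1 : ℝ) • v ∈ cone (S' ∪ {d, d'}) := by
      intro a b hab hab' hC
      obtain ⟨ha, hb⟩ := hypC_pos f hg h hv hC one_pos
      rcases le_or_gt a R with haR | haR
      · refine cone_mono Finset.subset_union_left (hMS ⟨(a, b), ⟨⟨⟨ha.le, haR⟩, ⟨hb.le, hab.trans haR⟩⟩, hab, hab', hC⟩, rfl⟩)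
      · obtain ⟨s, hs⟩ : ∃ s : ℝ, s = R / a := ⟨_, rfl⟩
        have hs0 : 0 < s := by rw [hs]; positivity
        have hs1 : s < 1 := by rw [hs]; exact (div_lt_one ha).2 haR
        have hsa : s * a = R := by rw [hs]; field_simp
        have hsb : b₀ ≤ s * b := by
          have h1 : s * a ≤ s * (t ^ 2 * b) := mul_le_mul_of_nonneg_left hab' hs0.le
          rw [hsa, hR] at h1
          have h2 : t ^ 2 * (a₀ + b₀) ≤ t ^ 2 * (s * b) := by linarith
          have h3 := le_of_mul_le_mul_left h2 (by positivity)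
          linarith
        have h1 : (s * a) • P + (s * b) • M + (1 : ℝ) • v ∈ closure C := by
          have h2 := f.amp.closure_add _ (f.amp.closure_add _ (f.amp.closure_smul (s * a - a₀) (by rw [hsa]; linarith) _ h.Pc)
            _ (f.amp.closure_smul (s * b - b₀) (by linarith) _ h.Mc)) _ (subset_closure hx₀)
          have e : (s * a - a₀) • P + (s * b - b₀) • M + (a₀ • P + b₀ • M + (1 : ℝ) • v) =
              (s * a) • P + (s * b) • M + (1 : ℝ) • v := by module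
          rwa [e] at h2
        have h2 : s * b ≤ s * a := mul_le_mul_of_nonneg_left hab hs0.le
        have h3 : (s * a) • P + (s * b) • M + (1 : ℝ) • v ∈ cone S' :=
          hMS ⟨(s * a, s * b), ⟨⟨⟨by rw [hsa]; exact hR0.le, hsa.le⟩, ⟨by positivity, h2.trans hsa.le⟩⟩, h2, by
            have h4 := mul_le_mul_of_nonneg_left hab' hs0.le
            calc s * a ≤ s * (t ^ 2 * b) := h4
              _ = t ^ 2 * (s * b) := by ring, h1⟩, rfl⟩
        obtain ⟨x, y, hx0, hy0, hxy⟩ := hyp_two h hab hab'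
        have e : a • P + b • M + (1 : ℝ) • v = ((s * a) • P + (s * b) • M + (1 : ℝ) • v) + (1 - s) • (a • P + b • M) := by module
        rw [e, hxy, ← hd, ← hd] at *
        rw [← hd']
        exact cone_add (cone_mono Finset.subset_union_left h3) (cone_smul (by linarith)
          (cone_add (cone_smul hx0 (toR_mem_cone (by simp))) (cone_smul hy0 (toR_mem_cone (by simp)))))
    refine ⟨S' ∪ {d, d'}, ?_, fun x hx => ?_⟩
    · intro s hs
      rw [Finset.mem_union, Finset.mem_insert, Finset.mem_singleton] at hs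
      rcases hs with hs | rfl | rfl
      · exact hS' s hs
      · exact hdC
      · exact hd'C
    · obtain ⟨a, b, c, rfl⟩ := h.span x
      obtain ⟨ha, hb, hc⟩ := hyp_open f h hx
      obtain ⟨k, h1, h2⟩ := hyp_norm h.t1 ha hb
      refine Set.mem_iUnion₂.2 ⟨g ^ k, G.zpow_mem hg k, (t ^ (-k) * a) • P + (t ^ k * b) • M + c • v, ?_, ?_⟩
      · have h3 := hyp_mem f hg h (-k) (subset_closure hx)
        rw [neg_neg] at h3
        have h4 := f.amp.closure_smul c⁻¹ (inv_pos.2 hc).le _ h3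
        rw [smul_add, smul_add, smul_smul, smul_smul, smul_smul, inv_mul_cancel₀ hc.ne'] at h4
        have h5 := hbig _ _ (mul_le_mul_of_nonneg_left h1 (inv_pos.2 hc).le) (by
          have h6 := mul_le_mul_of_nonneg_left h2 (inv_pos.2 hc).le
          calc c⁻¹ * (t ^ (-k) * a) ≤ c⁻¹ * (t ^ 2 * (t ^ k * b)) := h6
            _ = _ := by ring) h4
        have h6 := cone_smul hc.le h5
        rwa [smul_add, smul_add, smul_smul, smul_smul, smul_smul, mul_one, mul_inv_cancel_left₀ hc.ne',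
          mul_inv_cancel_left₀ hc.ne'] at h6
      · rw [hyp_zpow h, ← mul_assoc, ← mul_assoc, ← zpow_add₀ ht0.ne', ← zpow_add₀ ht0.ne', add_neg_cancel, neg_add_cancel,
          zpow_zero, one_mul, one_mul]

end Pool.Agent.H60.P3
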