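import Pool.Agent.H60.P3.Def

/-!
# [H60 P3 ParB] The parabolic case: local structure

`p = a A + b B + c F ∈ closure C` with `l p > 0` (so `a > 0`): `LocAt (closure C) p`.

PROOF.  `g A = A + B`, `g B = B + F`, `g F = F`.
(1) `T F F F = T B F F = 0`: `T (g B) F F = T B F F` gives `T F F F = 0`; `T (g A) F F = T A F F` gives `T B F F = 0`.
(2) `T A F F = 0`: `T (g B) (g B) F = T B B F` (`g F = F`): `2 T B F F + T F F F = 0`, fine; `T (g A) (g B) F = T A B F`:
`T A F F + T B B F + T B F F = 0`, so `T A F F = - T B B F`; `T (g B) (g B) (g B) = T B B B`: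
`3 T B B F + 3 T B F F + T F F F = 0`, so `T B B F = 0`.  So `T A F F = 0`, `T B B F = 0`.
(3) `T A B F = 0`: `T (g A) (g A) F = T A A F`: `2 T A B F + T B B F = 0`.
So `T p p F = a² T A A F` for `p = a A + b B + c F` (`s12`, `s23`).
(4) `T A A F > 0` (`f.pos`).  `f.loc`: let `w ∈ closure C`, `w ≠ 0`, `T (p+w)³ = 0`, suppose `l w ≤ 0`: `w = a' A + b' B + c' F`,
`a' ≥ 0`, `l w = a' l A`, so `a' = 0`, `b' = 0`, `c' > 0` (`ray`).  `T (p+w)³ = T p³ + 3 T p p w + 3 T p w w + T w³ ≥ 3 c' T p p F > 0`.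
-/

set_option autoImplicit false

namespace Pool.Agent.H60.P3

open Pool.Agent.H57.KM Pool.Agent.H20.FV

variable {C : Set (V 3)} {G : Subgroup (GL (Fin 3) ℤ)} {T : V 3 →ₗ[ℝ] V 3 →ₗ[ℝ] V 3 →ₗ[ℝ] ℝ} {l : V 3 →ₗ[ℝ] ℝ}
  {g : GL (Fin 3) ℤ} {A B F : V 3}

theorem parB (f : Fr C G T l) (hg : g ∈ G) (h : ParD C l g A B F) {p : V 3} (hp : p ∈ closure C) (hlp : 0 < l p) :
    LocAt (closure C) p := by
  have hlA := f.lpos A h.Ac
  have lv : ∀ a b c : ℝ, l (a • A + b • B + c • F) = a * l A := by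
    intro a b c
    rw [map_add, map_add, map_smul, map_smul, map_smul, h.lB, h.lF]
    simp
  have e1 := f.Tinv g hg B F F
  rw [h.gB, h.gF] at e1
  simp only [map_add, LinearMap.add_apply] at e1
  have e2 := f.Tinv g hg A F F
  rw [h.gA, h.gF] at e2
  simp only [map_add, LinearMap.add_apply] at e2
  have e3 := f.Tinv g hg A B F
  rw [h.gA, h.gB, h.gF] at e3
  simp only [map_add, LinearMap.add_apply] at e3
  have e4 := f.Tinv g hg B B B
  rw [h.gB] at e4
  simp only [map_add, LinearMap.add_apply] at e4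
  have e5 := f.Tinv g hg A A F
  rw [h.gA, h.gF] at e5
  simp only [map_add, LinearMap.add_apply] at e5
  have s1 := f.s23 B F B
  have s2 := f.s12 F B B
  have s3 := f.s12 F B F
  have s4 := f.s23 F F B
  have s5 := f.s12 B A F
  have s6 := f.s12 F A F
  have hFFF : T F F F = 0 := by linarith
  have hBFF : T B F F = 0 := by linarith
  have hBBF : T B B F = 0 := by linarith
  have hAFF : T A F F = 0 := by linarith
  have hABF : T A B F = 0 := by linarith
  obtain ⟨a, b, c, hpe⟩ := h.span p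
  have ha : 0 < a := by
    rw [hpe, lv] at hlp
    exact (mul_pos_iff_of_pos_right hlA).1 hlp
  have hppF : T p p F = a ^ 2 * T A A F := by
    rw [hpe]
    simp only [map_add, LinearMap.add_apply, map_smul, LinearMap.smul_apply, smul_eq_mul]
    rw [s5, s6, s3, hFFF, hBFF, hBBF, hAFF, hABF]
    ring
  have hAAF : 0 < T A A F := f.pos A h.Ac F h.Fc h.F0
  refine f.loc p hp ?_ ?_
  · rintro rfl
    rw [map_zero] at hlp
    exact lt_irrefl _ hlp
  intro w hw hw0 hT
  by_contra hlw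
  push Not at hlw
  obtain ⟨a', b', c', hwe⟩ := h.span w
  have ha' : 0 ≤ a' := h.nn a' b' c' (hwe ▸ hw)
  have ha0 : a' = 0 := by
    rw [hwe, lv] at hlw
    nlinarith
  rw [ha0, zero_smul, zero_add] at hwe
  obtain ⟨hb, hc⟩ := h.ray b' c' (hwe ▸ hw)
  rw [hb, zero_smul, zero_add] at hwe
  have hc0 : 0 < c' := by
    refine lt_of_le_of_ne hc ?_
    rintro rfl
    rw [zero_smul] at hwe
    exact hw0 hwe
  have h1 : T p p w = c' * (a ^ 2 * T A A F) := by
    rw [hwe, map_smul, smul_eq_mul, hppF]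
  have h2 : 0 < T p p w := by
    rw [h1]
    positivity
  simp only [map_add, LinearMap.add_apply] at hT
  have n1 := f.nn p hp p hp p hp
  have n2 := f.nn p hp w hw w hw
  have n3 := f.nn w hw w hw w hw
  have n4 := f.nn p hp w hw p hp
  have n5 := f.nn w hw p hp p hp
  have n6 := f.nn w hw p hp w hw
  have n7 := f.nn w hw w hw p hp
  linarith

end Pool.Agent.H60.P3
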